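import Pool.Agent.Helper47.OC.S5d

/-!
Step (5), part e: `Q^J = Φ(x_b) + Δ ζ`.
-/

set_option autoImplicit false

namespace AnOC
open Polynomial
variable {M Γ : Type} [AddCommGroup Γ] {xd : M → Γ} {e d : Γ} (O : NR M Γ xd e d)

/-- The data of Step (5). -/
structure S5Node (O : NR M Γ xd e d) (L : Finset M) (P Ψ X xb w g : O.A) (φ T : O.Aˣ) (m : ℕ)
    (q b e' : Γ) : Prop where
  s5 : S5Data O L P Ψ X b
  be : b = m • q + e'
  φ_even : O.s (φ : O.A) = φ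
  T_Hd : (T : O.A) ∈ O.Hd q
  T_even : O.s (T : O.A) = T
  T_I : (T : O.A) ∈ O.I
  T_Lv : O.Lv L (T : O.A)
  DlT : O.s5Dl P (T : O.A) = 0
  ΨT : (φ : O.A) * Ψ = T ^ m
  X_eq : X = xb + w
  w_mem : w ∈ O.R
  w_even : O.s w = w
  w_Hd : w ∈ O.Hd b
  w_Lv : O.Lv L w
  w_free : O.dx w = 0
  DlX : O.s5Dl P xb = g
  g_odd : O.s g = -g
  g_free : O.dx g = 0
  DlDl : ∀ y, O.Lv L y → O.s5Dl P (O.s5Dl P y) = 0

variable {O} {L : Finset M} {P Ψ X xb w g : O.A} {φ T : O.Aˣ} {m : ℕ} {q b e' : Γ}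

/-- `Q^J = Φ(x_b) + Δ ζ`. -/
theorem S5Node.main (h : S5Node O L P Ψ X xb w g φ T m q b e') (n c : ℕ) (hn : 1 ≤ n) (ω : O.A)
    (hω : (T : O.A) * ω = φ * O.dx (T : O.A))
    (hβR : ∀ k ≤ n + 1, ∀ j, (T : O.A) ^ c * bet (O.s5Eo (φ : O.A)) ω m k j ∈ O.R)
    (hβL : ∀ k ≤ n + 1, ∀ j, O.Lv L (bet (O.s5Eo (φ : O.A)) ω m k j))
    (hβH : ∀ k ≤ n + 1, ∀ j, bet (O.s5Eo (φ : O.A)) ω m k j ∈ O.Hd (-(k • e')))
    (hβs : ∀ k ≤ n + 1, ∀ j, O.s (bet (O.s5Eo (φ : O.A)) ω m k j) = bet (O.s5Eo (φ : O.A)) ω m k j)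
    (z : ℕ → O.A) (hzR : ∀ j, (T : O.A) ^ c * z j ∈ O.R) (hzL : ∀ j, O.Lv L (z j))
    (hzH : ∀ j, z j ∈ O.Hd (-((n + 1) • e') - d)) (hzs : ∀ j, O.s (z j) = -z j)
    (hz : ∀ j, O.s5Dl P (z j) = bet (O.s5Eo (φ : O.A)) ω m (n + 1) j)
    (J : ℕ) (hJ : J = m * (n + 1) + c + 1) :
    ∃ (p : O.A[X]) (ζ : O.A), (∀ k, O.s (p.coeff k) = p.coeff k) ∧ O.s ζ = -ζ ∧ O.s5Pf p ∧ (∀ k, p.coeff k ∈ O.I) ∧ (∀ k, O.Lv L (p.coeff k)) ∧
      (∀ k : ℕ, p.coeff k ∈ O.Hd (J • q - k • b)) ∧ O.s5PD g p 0 ∧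
      p.eval (-w) = O.ev (T : O.A) ^ J ∧
      ζ ∈ O.R ∧ ζ ∈ O.Hd (J • q - d) ∧ O.Lv L ζ ∧
      (T : O.A) ^ J = p.eval xb + O.s5Dl P ζ := by
  have hω' : ω = ((T⁻¹ : O.Aˣ) : O.A) * ((φ : O.A) * O.dx (T : O.A)) := by
    rw [← hω, Units.inv_mul_cancel_left]
  have hPo := h.s5.P_odd
  have hle : ∀ k ≤ n + 1, m * k ≤ m * (n + 1) := fun k hk => Nat.mul_le_mul_left m hk
  obtain ⟨β, hβ⟩ : ∃ β, β = bet (O.s5Eo (φ : O.A)) ω m := ⟨_, rfl⟩
  rw [← hβ] at hβR hβL hβH hβs hz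
  have hB : ∀ k, betS (O.s5Eo (φ : O.A)) ω m (J : ℚ) k =
      ∑ j ∈ Finset.range (k + 1), (J : ℚ) ^ j • β k j := by
    intro k; rw [hβ]; rfl
  obtain ⟨a, ha⟩ : ∃ a : ℕ → O.A, a = fun k => (T : O.A) ^ (J - m * k) *
      betS (O.s5Eo (φ : O.A)) ω m (J : ℚ) k := ⟨_, rfl⟩
  have hpow : ∀ {k : ℕ}, c + 1 ≤ k → ∀ {y : O.A}, (T : O.A) ^ c * y ∈ O.R →
      (T : O.A) ^ k * y ∈ O.I := by
    intro k hk y hy
    obtain ⟨d, hd⟩ : ∃ d, k = d + 1 + c := ⟨k - 1 - c, by omega⟩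
    rw [hd, pow_add, mul_assoc, pow_succ, mul_assoc]
    exact O.mul_I _ (O.R.pow_mem (O.I_le _ h.T_I) d) _ (O.I_mul _ h.T_I _ hy)
  -- degrees: `(J - m k) q - k e = J q - k b`
  have hdeg : ∀ k, m * k ≤ J → (J - m * k) • q + -(k • e') = J • q - k • b := by
    intro k hk
    obtain ⟨i, hi⟩ := Nat.exists_eq_add_of_le hk
    rw [h.be, hi, Nat.add_sub_cancel_left, nsmul_add, add_nsmul, ← mul_nsmul' q k m, mul_comm k m]
    abel
  -- the sequence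
  have haI : ∀ k ≤ n + 1, a k ∈ O.I := by
    intro k hk
    have h1 := hle k hk
    rw [ha]
    show (T : O.A) ^ (J - m * k) * betS (O.s5Eo (φ : O.A)) ω m (J : ℚ) k ∈ O.I
    rw [hB, Finset.mul_sum]
    refine Submodule.sum_mem _ fun j _ => ?_
    rw [mul_smul_comm]
    exact Submodule.smul_mem _ _ (hpow (by omega) (hβR k hk j))
  have haL : ∀ k ≤ n + 1, O.Lv L (a k) := by
    intro k hk
    rw [ha]
    show O.Lv L ((T : O.A) ^ (J - m * k) * betS (O.s5Eo (φ : O.A)) ω m (J : ℚ) k)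
    rw [hB]
    exact O.s5Lv_mul (O.s5Lv_pow h.T_Lv _) (O.s5Lv_sum _ _ fun j _ => O.s5Lv_smul _ (hβL k hk j))
  have haH : ∀ k ≤ n + 1, a k ∈ O.Hd (J • q - k • b) := by
    intro k hk
    have h1 := hle k hk
    rw [ha]
    show (T : O.A) ^ (J - m * k) * betS (O.s5Eo (φ : O.A)) ω m (J : ℚ) k ∈ O.Hd (J • q - k • b)
    rw [hB]
    exact O.s5Hd_mul (O.s5pow_Hd h.T_Hd (J - m * k))
      (Submodule.sum_mem (O.Hd (-(k • e'))) (t := Finset.range (k + 1))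
        (f := fun j => (J : ℚ) ^ j • β k j)
        (fun j _ => Submodule.smul_mem _ _ (hβH k hk j))) (hdeg k (by omega))
  have has : ∀ k ≤ n + 1, O.s (a k) = a k := by
    intro k hk
    rw [ha]
    show O.s ((T : O.A) ^ (J - m * k) * betS (O.s5Eo (φ : O.A)) ω m (J : ℚ) k) =
      (T : O.A) ^ (J - m * k) * betS (O.s5Eo (φ : O.A)) ω m (J : ℚ) k
    rw [hB, map_mul, map_pow, h.T_even, map_sum]
    congr 1
    refine Finset.sum_congr rfl fun j _ => ?_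
    rw [map_smul, hβs k hk j]
  have hda : ∀ k < n + 1, O.dx (a k) = Ψ * a (k + 1) := by
    intro k hk
    have h1 := hle k (by omega)
    have h1' := hle (k + 1) (by omega)
    have h2 := O.s5Eo_pow (φ := (φ : O.A)) (T := T) h.φ_even h.T_even m k J (by omega)
    rw [← hω'] at h2
    have h3 : (φ : O.A) * O.dx (a k) = (φ : O.A) * (Ψ * a (k + 1)) := by
      rw [ha]
      show (φ : O.A) * O.dx ((T : O.A) ^ (J - m * k) * betS (O.s5Eo (φ : O.A)) ω m (J : ℚ) k) =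
        (φ : O.A) * (Ψ * ((T : O.A) ^ (J - m * (k + 1)) *
          betS (O.s5Eo (φ : O.A)) ω m (J : ℚ) (k + 1)))
      rw [h2, ← mul_assoc (φ : O.A), h.ΨT, ← mul_assoc, ← pow_add]
      congr 2
      have : m * (k + 1) = m * k + m := by ring
      omega
    exact (Units.isUnit φ).mul_left_cancel h3
  -- the primitive
  obtain ⟨Z, hZ⟩ : ∃ Z : O.A, Z = (T : O.A) ^ (J - m * (n + 1)) *
      ∑ j ∈ Finset.range (n + 1 + 1), (J : ℚ) ^ j • z j := ⟨_, rfl⟩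
  have hZI : Z ∈ O.I := by
    rw [hZ, Finset.mul_sum]
    refine Submodule.sum_mem _ fun j _ => ?_
    rw [mul_smul_comm]
    exact Submodule.smul_mem _ _ (hpow (by omega) (hzR j))
  have hZR : Z ∈ O.R := O.I_le _ hZI
  have hZL : O.Lv L Z := by
    rw [hZ]
    exact O.s5Lv_mul (O.s5Lv_pow h.T_Lv _) (O.s5Lv_sum _ _ fun j _ => O.s5Lv_smul _ (hzL j))
  have hZH : Z ∈ O.Hd (J • q - (n + 1) • b - d) := by
    rw [hZ]
    refine O.s5Hd_mul (O.s5pow_Hd h.T_Hd (J - m * (n + 1)))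
      (Submodule.sum_mem (O.Hd (-((n + 1) • e') - d)) (t := Finset.range (n + 1 + 1))
        (f := fun j => (J : ℚ) ^ j • z j)
        (fun j _ => Submodule.smul_mem _ _ (hzH j))) ?_
    rw [← hdeg (n + 1) (by omega)]
    abel
  have hZs : O.s Z = -Z := by
    rw [hZ, map_mul, map_pow, h.T_even, map_sum, ← mul_neg, ← Finset.sum_neg_distrib]
    congr 1
    refine Finset.sum_congr rfl fun j _ => ?_
    rw [map_smul, hzs, smul_neg]
  have hDZ : O.s5Dl P Z = a (n + 1) := by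
    rw [hZ, ha]
    show O.s5Dl P ((T : O.A) ^ (J - m * (n + 1)) *
      ∑ j ∈ Finset.range (n + 1 + 1), (J : ℚ) ^ j • z j) =
      (T : O.A) ^ (J - m * (n + 1)) * betS (O.s5Eo (φ : O.A)) ω m (J : ℚ) (n + 1)
    obtain ⟨d, hd⟩ : ∃ d, J - m * (n + 1) = d + 1 := ⟨c, by omega⟩
    rw [hd, O.s5Dl_mul hPo, O.s5Dl_pow hPo h.T_even, h.DlT, mul_zero, smul_zero, zero_mul,
      zero_add, map_pow, h.T_even, hB, map_sum]
    congr 1
    refine Finset.sum_congr rfl fun j _ => ?_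
    rw [map_smul, hz]
  obtain ⟨ζ, hζR, hζs, hζH, hζL, -, hζ⟩ := h.s5.taylor n (J • q) a Z
    (fun k hk => O.I_le _ (haI k hk)) haL hda hZR hZL hZH hZs hDZ
  -- the coefficients
  obtain ⟨C, hC⟩ : ∃ C : ℕ → O.A, C = fun k => if k ≤ n then ((k.factorial : ℚ)⁻¹ • O.ev (a k) -
      if k = n then ((n.factorial : ℚ)⁻¹ • (O.ev (P * Ψ) * O.ev Z)) else 0) else 0 := ⟨_, rfl⟩
  have hσL : O.Lv L (P * Ψ) := O.s5Lv_mul h.s5.P_Lv h.s5.Ψ_Lv
  have hσH : P * Ψ ∈ O.Hd (b + d) := O.s5Hd_mul h.s5.P_Hd h.s5.Ψ_Hd (by abel)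
  have hCf : ∀ k, O.dx (C k) = 0 := by
    intro k
    rw [hC]
    dsimp only
    split_ifs
    · rw [map_sub, map_smul, map_smul, O.dx_ev, O.dx_mul, O.dx_ev, O.dx_ev]
      simp
    · rw [map_sub, map_smul, O.dx_ev]
      simp
    · rw [map_zero]
  have hCI : ∀ k, C k ∈ O.I := by
    intro k
    rw [hC]
    dsimp only
    split_ifs with h1 h2
    · exact Submodule.sub_mem _ (Submodule.smul_mem _ _ (O.ev_I _ (haI k (by omega))))
        (Submodule.smul_mem _ _ (O.mul_I _ (O.ev_R _ h.s5.PΨ_mem) _ (O.ev_I _ hZI)))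
    · exact Submodule.sub_mem _ (Submodule.smul_mem _ _ (O.ev_I _ (haI k (by omega))))
        (Submodule.zero_mem _)
    · exact Submodule.zero_mem _
  have hCL : ∀ k, O.Lv L (C k) := by
    intro k
    rw [hC]
    dsimp only
    split_ifs with h1 h2
    · exact O.s5Lv_sub (O.s5Lv_smul _ (O.s5Lv_ev (haL k (by omega))))
        (O.s5Lv_smul _ (O.s5Lv_mul (O.s5Lv_ev hσL) (O.s5Lv_ev hZL)))
    · exact O.s5Lv_sub (O.s5Lv_smul _ (O.s5Lv_ev (haL k (by omega)))) (O.s5Lv_zero L)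
    · exact O.s5Lv_zero L
  have hCH : ∀ k : ℕ, C k ∈ O.Hd (J • q - k • b) := by
    intro k
    rw [hC]
    dsimp only
    split_ifs with h1 h2
    · refine Submodule.sub_mem _ (Submodule.smul_mem _ _ (O.Hd_ev _ _ (haH k (by omega))))
        (Submodule.smul_mem _ _ ?_)
      refine O.s5Hd_mul (O.Hd_ev _ _ hσH) (O.Hd_ev _ _ hZH) ?_
      rw [h2, add_nsmul, one_nsmul]
      abel
    · exact Submodule.sub_mem _ (Submodule.smul_mem _ _ (O.Hd_ev _ _ (haH k (by omega))))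
        (Submodule.zero_mem _)
    · exact Submodule.zero_mem _
  have hCs : ∀ k, O.s (C k) = C k := by
    intro k
    rw [hC]
    dsimp only
    split_ifs with h1 h2
    · rw [map_sub, map_smul, map_smul, map_mul, ← O.ev_s, ← O.ev_s, ← O.ev_s, has k (by omega),
        hZs, map_mul, h.s5.P_odd, h.s5.Ψ_even, neg_mul, map_neg, map_neg, neg_mul_neg]
    · rw [map_sub, map_smul, ← O.ev_s, has k (by omega), map_zero]
    · rw [map_zero]
  have hxbe : O.s xb = xb := by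
    have h1 : xb = X - w := by rw [h.X_eq]; abel
    rw [h1, map_sub, h.s5.X_even, h.w_even]
  obtain ⟨p, hp0, hp1, hp2, hp3, hp4, hp5, hp6⟩ := O.s5shift (L := L) hxbe h.w_even h.w_free
    h.w_mem h.w_Lv (w0 := J • q) h.w_Hd n C hCf hCI hCL hCH hCs
  have hsum : (∑ k ∈ Finset.range (n + 1), C k * (xb + w) ^ k) =
      (∑ k ∈ Finset.range (n + 1), ((k.factorial : ℚ)⁻¹ • O.ev (a k)) * X ^ k) -
        ((n.factorial : ℚ)⁻¹ • (O.ev (P * Ψ) * O.ev Z)) * X ^ n := by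
    rw [← h.X_eq, Finset.sum_range_succ, Finset.sum_range_succ, add_sub_assoc]
    congr 1
    · refine Finset.sum_congr rfl fun k hk => ?_
      rw [Finset.mem_range] at hk
      rw [hC]
      dsimp only
      rw [if_pos (by omega), if_neg (by omega), sub_zero]
    · rw [hC]
      dsimp only
      rw [if_pos le_rfl, if_pos rfl, sub_mul]
  have hfin : (T : O.A) ^ J = p.eval xb + O.s5Dl P ζ := by
    have h1 : a 0 = (T : O.A) ^ J := by
      rw [ha]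
      show (T : O.A) ^ (J - m * 0) * betS (O.s5Eo (φ : O.A)) ω m (J : ℚ) 0 = _
      rw [betS_zero, mul_one, mul_zero, Nat.sub_zero]
    rw [← h1, hζ, hp5, hsum]
  refine ⟨p, ζ, hp0, hζs, hp1, hp2, hp3, hp4, ?_, ?_, hζR, hζH, hζL, hfin⟩
  · have h1 : O.dx xb = ((φ⁻¹ * T ^ m : O.Aˣ) : O.A) := by
      have h2 : xb = X - w := by rw [h.X_eq]; abel
      rw [h2, map_sub, h.w_free, sub_zero, h.s5.dxX, Units.val_mul, Units.val_pow_eq_pow_val,
        ← h.ΨT, Units.inv_mul_cancel_left]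
    refine O.s5PD_zero hPo h.g_odd hxbe h.DlX h1 h.g_free hp1 ?_
    have h2 : p.eval xb = (T : O.A) ^ J - O.s5Dl P ζ := by rw [hfin]; abel
    rw [h2, map_sub, h.DlDl _ hζL, hJ, O.s5Dl_pow hPo h.T_even, h.DlT, mul_zero, smul_zero,
      sub_zero]
  · rw [hp6, hC]
    dsimp only
    rw [if_pos (Nat.zero_le n), if_neg (by omega), sub_zero, Nat.factorial_zero, Nat.cast_one,
      inv_one, one_smul, ha]
    dsimp only
    rw [betS_zero, mul_one, mul_zero, Nat.sub_zero, map_pow]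

end AnOC
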