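import Pool.Agent.Helper47.OC.S5c

/-!
Step (5), part f: `η` from `Q^J = Φ(x_b) + Δ ζ` and `D Z = Φ^{R₀}`.
-/

set_option autoImplicit false

namespace AnOC
open Polynomial
variable {M Γ : Type} [AddCommGroup Γ] {xd : M → Γ} {e d : Γ} (O : NR M Γ xd e d)

theorem NR.s5Dl_one (P : O.A) : O.s5Dl P 1 = 0 := by
  rw [O.s5Dl_apply, O.s5D_one, O.s5dx_one, mul_zero, add_zero]

theorem NR.s5Dl_pow0 {P : O.A} (hP : O.s P = -P) {a : O.A} (ha : O.s a = a)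
    (h : O.s5Dl P a = 0) (k : ℕ) : O.s5Dl P (a ^ k) = 0 := by
  rcases k with _ | k
  · rw [pow_zero, O.s5Dl_one]
  · rw [O.s5Dl_pow hP ha, h, mul_zero, smul_zero]

theorem NR.s5Dl_inv {P : O.A} (hP : O.s P = -P) {u : O.Aˣ} (hu : O.s (u : O.A) = u)
    (h : O.s5Dl P (u : O.A) = 0) : O.s5Dl P ((u⁻¹ : O.Aˣ) : O.A) = 0 := by
  have h1 : O.s5Dl P ((u : O.A) * ((u⁻¹ : O.Aˣ) : O.A)) = 0 := by rw [Units.mul_inv, O.s5Dl_one]
  rw [O.s5Dl_mul hP, h, zero_mul, zero_add, hu] at h1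
  exact (Units.isUnit u).mul_right_eq_zero.1 h1

theorem NR.s5s_inv {u : O.Aˣ} (hu : O.s (u : O.A) = u) :
    O.s ((u⁻¹ : O.Aˣ) : O.A) = ((u⁻¹ : O.Aˣ) : O.A) := by
  have h1 : O.s ((u : O.A) * ((u⁻¹ : O.Aˣ) : O.A)) = 1 := by rw [Units.mul_inv, map_one]
  rw [map_mul, hu] at h1
  exact (Units.isUnit u).mul_left_cancel (h1.trans (Units.mul_inv u).symm)

theorem NR.s5Lv_inv {L : Finset M} {u : O.Aˣ} (hs : O.s (u : O.A) = u)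
    (hu : O.Lv L (u : O.A)) : O.Lv L ((u⁻¹ : O.Aˣ) : O.A) := by
  intro j hj
  have h1 : O.pd j ((u : O.A) * ((u⁻¹ : O.Aˣ) : O.A)) = 0 := by rw [Units.mul_inv, O.s5pd_one]
  rw [O.pd_mul, hu j hj, zero_mul, zero_add, hs] at h1
  exact (Units.isUnit u).mul_right_eq_zero.1 h1

theorem NR.s5eta {L : Finset M} {P g xb ζ : O.A} {T : O.Aˣ} {q b : Γ} {J R₀ : ℕ}
    {p Z : O.A[X]} (hP : O.s P = -P) (hg : O.s g = -g)
    (hxb : O.s xb = xb) (hDxb : O.s5Dl P xb = g) (hxbR : xb ∈ O.R) (hxbH : xb ∈ O.Hd b)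
    (hxbL : O.Lv L xb)
    (hTs : O.s (T : O.A) = T) (hTH : (T : O.A) ∈ O.Hd q) (hTR : (T : O.A) ∈ O.R)
    (hTL : O.Lv L (T : O.A)) (hDT : O.s5Dl P (T : O.A) = 0)
    (hζR : ζ ∈ O.R) (hζH : ζ ∈ O.Hd (J • q - d)) (hζL : O.Lv L ζ)
    (hp : ∀ k, p.coeff k ∈ O.R) (hps : ∀ k, O.s (p.coeff k) = p.coeff k)
    (hpH : ∀ k : ℕ, p.coeff k ∈ O.Hd (J • q - k • b)) (hpL : ∀ k, O.Lv L (p.coeff k))
    (hT : (T : O.A) ^ J = p.eval xb + O.s5Dl P ζ) (hDD : O.s5Dl P (O.s5Dl P ζ) = 0)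
    (hZf : O.s5Pf Z) (hZ : O.s5PD g Z (p ^ R₀)) (hZR : ∀ k, Z.coeff k ∈ O.R)
    (hZH : ∀ k : ℕ, Z.coeff k ∈ O.Hd (R₀ • (J • q) - d - k • b)) (hZL : ∀ k, O.Lv L (Z.coeff k)) :
    ∃ η : O.A, η ∈ O.Hd (-d) ∧ O.Lv L η ∧ O.s5Dl P η = 1 ∧ (T : O.A) ^ (J * R₀) * η ∈ O.R := by
  have hTc : ∀ (k : ℕ) (a : O.A), (T : O.A) ^ k * a = a * T ^ k := fun k a =>
    O.even_comm _ a (by rw [map_pow, hTs])
  obtain ⟨Q, hq⟩ : ∃ Q, Q = p.eval xb := ⟨_, rfl⟩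
  have hqR : Q ∈ O.R := by
    rw [hq, eval_eq_sum_range]
    exact Subalgebra.sum_mem _ fun k _ => O.R.mul_mem (hp k) (O.R.pow_mem hxbR k)
  have hqH : Q ∈ O.Hd (J • q) := by
    rw [hq, eval_eq_sum_range]
    refine Submodule.sum_mem _ fun k _ => ?_
    exact O.s5Hd_mul (hpH k) (O.s5pow_Hd hxbH k) (by abel)
  have hqL : O.Lv L Q := by
    rw [hq, eval_eq_sum_range]
    exact O.s5Lv_sum _ _ fun k _ => O.s5Lv_mul (hpL k) (O.s5Lv_pow hxbL k)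
  have hqs : O.s Q = Q := by
    rw [hq, eval_eq_sum_range, map_sum]
    refine Finset.sum_congr rfl fun k _ => ?_
    rw [map_mul, map_pow, hxb, hps]
  have hDq : O.s5Dl P Q = 0 := by
    have h1 : Q = (T : O.A) ^ J - O.s5Dl P ζ := by rw [hT, hq]; abel
    rw [h1, map_sub, hDD, O.s5Dl_pow0 hP hTs hDT, sub_zero]
  obtain ⟨W, hW⟩ : ∃ W, W = Z.eval xb := ⟨_, rfl⟩
  have hWR : W ∈ O.R := by
    rw [hW, eval_eq_sum_range]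
    exact Subalgebra.sum_mem _ fun k _ => O.R.mul_mem (hZR k) (O.R.pow_mem hxbR k)
  have hWH : W ∈ O.Hd (R₀ • (J • q) - d) := by
    rw [hW, eval_eq_sum_range]
    refine Submodule.sum_mem _ fun k _ => ?_
    exact O.s5Hd_mul (hZH k) (O.s5pow_Hd hxbH k) (by abel)
  have hWL : O.Lv L W := by
    rw [hW, eval_eq_sum_range]
    exact O.s5Lv_sum _ _ fun k _ => O.s5Lv_mul (hZL k) (O.s5Lv_pow hxbL k)
  have hDW : O.s5Dl P W = Q ^ R₀ := by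
    rw [hW, O.s5Dl_eval hP hg hxb hDxb hZf hZ, hq, ← O.s5evc_apply xb hxb,
      ← O.s5evc_apply xb hxb, map_pow]
  -- the geometric sum
  obtain ⟨S, hS⟩ : ∃ S : O.A, S = ∑ i ∈ Finset.range R₀, ((T : O.A) ^ J) ^ i * Q ^ (R₀ - 1 - i) :=
    ⟨_, rfl⟩
  have hSR : S ∈ O.R := by
    rw [hS]
    exact Subalgebra.sum_mem _ fun i _ => O.R.mul_mem (O.R.pow_mem (O.R.pow_mem hTR _) _)
      (O.R.pow_mem hqR _)
  have hSL : O.Lv L S := by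
    rw [hS]
    exact O.s5Lv_sum _ _ fun i _ => O.s5Lv_mul (O.s5Lv_pow (O.s5Lv_pow hTL _) _)
      (O.s5Lv_pow hqL _)
  have hDS : O.s5Dl P S = 0 := by
    rw [hS, map_sum]
    refine Finset.sum_eq_zero fun i _ => ?_
    rw [O.s5Dl_mul hP, O.s5Dl_pow0 hP hqs hDq, ← pow_mul, O.s5Dl_pow0 hP hTs hDT, zero_mul,
      mul_zero, add_zero]
  have hSH : ζ * S ∈ O.Hd (R₀ • (J • q) - d) := by
    rw [hS, Finset.mul_sum]
    refine Submodule.sum_mem _ fun i hi => ?_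
    rw [Finset.mem_range] at hi
    refine O.s5Hd_mul hζH (O.Hd_mul _ _ _ _ (O.s5pow_Hd (O.s5pow_Hd hTH J) i)
      (O.s5pow_Hd hqH (R₀ - 1 - i))) ?_
    have h1 : R₀ • (J • q) = (J • q) + (i • (J • q) + (R₀ - 1 - i) • (J • q)) := by
      rw [← add_nsmul, ← succ_nsmul']
      congr 1
      omega
    rw [h1]
    abel
  have hTq : (T : O.A) ^ (J * R₀) = Q ^ R₀ + O.s5Dl P ζ * S := by
    have h1 : Commute ((T : O.A) ^ J) Q := O.even_comm _ _ (by rw [map_pow, hTs])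
    have h2 := h1.mul_geom_sum₂ R₀
    rw [← hS] at h2
    have h3 : (T : O.A) ^ J - Q = O.s5Dl P ζ := by rw [hT, hq]; abel
    rw [h3] at h2
    rw [h2, pow_mul]
    abel
  obtain ⟨v, hv⟩ : ∃ v : O.Aˣ, v = (T ^ (J * R₀))⁻¹ := ⟨_, rfl⟩
  have hTk : ((T ^ (J * R₀) : O.Aˣ) : O.A) = (T : O.A) ^ (J * R₀) := Units.val_pow_eq_pow_val _ _
  have hTks : O.s ((T ^ (J * R₀) : O.Aˣ) : O.A) = ((T ^ (J * R₀) : O.Aˣ) : O.A) := by
    rw [hTk, map_pow, hTs]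
  have hTkD : O.s5Dl P ((T ^ (J * R₀) : O.Aˣ) : O.A) = 0 := by
    rw [hTk, O.s5Dl_pow0 hP hTs hDT]
  have hDv : O.s5Dl P (v : O.A) = 0 := by rw [hv]; exact O.s5Dl_inv hP hTks hTkD
  have hvs : O.s (v : O.A) = v := by rw [hv]; exact O.s5s_inv hTks
  have hvL : O.Lv L (v : O.A) := by
    rw [hv]; exact O.s5Lv_inv hTks (by rw [hTk]; exact O.s5Lv_pow hTL _)
  have hvH : (v : O.A) ∈ O.Hd (-((J * R₀) • q)) := by
    rw [hv]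
    exact O.Hd_inv _ _ (by rw [hTk]; exact O.s5pow_Hd hTH _)
  have hvT : (v : O.A) * (T : O.A) ^ (J * R₀) = 1 := by rw [← hTk, hv, Units.inv_mul]
  refine ⟨(v : O.A) * (W + ζ * S), ?_, ?_, ?_, ?_⟩
  · refine O.s5Hd_mul hvH (Submodule.add_mem _ hWH hSH) ?_
    rw [mul_comm J R₀, mul_nsmul']
    abel
  · exact O.s5Lv_mul hvL (O.s5Lv_add hWL (O.s5Lv_mul hζL hSL))
  · rw [O.s5Dl_mul hP, hDv, zero_mul, zero_add, hvs, map_add, hDW, O.s5Dl_mul hP, hDS, mul_zero,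
      add_zero, ← hTq, hvT]
  · rw [← mul_assoc, hTc, hvT, one_mul]
    exact O.R.add_mem hWR (O.R.mul_mem hζR hSR)

end AnOC
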