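import Pool.Agent.Helper23.OC.D06
import Pool.Agent.Helper23.OC.T03
import Pool.Agent.Helper47.OC.S5f

/-!
Step (5) for a stage: `last`.
-/

set_option autoImplicit false

namespace AnOC
open AnWL PowerSeries

variable {M : Type} {xd : M → ℤ} {N : ℕ} {e : ℤ} {he : Even e}

/-! ### constants -/

theorem ps_C_of {A : Type} [Ring A] [Algebra ℚ A] {a : PowerSeries A} (h : psdx A a = 0) :
    a = PowerSeries.C (coeff 0 a) := by
  rw [← psev_apply, psev_of_psdx h]

theorem lst_psL_C {A : Type} [Ring A] [Algebra ℚ A] (f : A →ₗ[ℚ] A) (z : A) :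
    psL f (PowerSeries.C z) = PowerSeries.C (f z) := by
  ext n
  rw [coeff_psL, coeff_C, coeff_C]
  split_ifs
  · rfl
  · exact map_zero f

theorem ps_coeff0_mul {A : Type} [Ring A] (a b : PowerSeries A) :
    coeff 0 (a * b) = coeff 0 a * coeff 0 b := by
  rw [coeff_zero_eq_constantCoeff_apply, coeff_zero_eq_constantCoeff_apply,
    coeff_zero_eq_constantCoeff_apply, map_mul]

/-- The constant coefficient. -/
noncomputable def cf0 (G : GA M xd N) (e : ℤ) (he : Even e) : (psn G e he).A →+* G.A where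
  toFun a := coeff 0 (a : PowerSeries G.A)
  map_one' := by
    show coeff 0 (1 : PowerSeries G.A) = 1
    rw [coeff_one, if_pos rfl]
  map_mul' a b := ps_coeff0_mul (A := G.A) a b
  map_zero' := map_zero (coeff 0 : PowerSeries G.A →ₗ[G.A] G.A)
  map_add' a b := map_add (coeff 0 : PowerSeries G.A →ₗ[G.A] G.A) a b

/-- Constants. -/
noncomputable def Cn (G : GA M xd N) (e : ℤ) (he : Even e) : G.A →+* (psn G e he).A :=
  (PowerSeries.C : G.A →+* PowerSeries G.A)

section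
variable {G H : GA M xd N}

theorem cf0_smul (r : ℚ) (a : (psn G e he).A) : cf0 G e he (r • a) = r • cf0 G e he a :=
  ps_coeff_smul (A := G.A) 0 r a

theorem cf0_s (a : (psn G e he).A) : cf0 G e he ((psn G e he).s a) = G.s (cf0 G e he a) :=
  coeff_psH G.s 0 a

theorem cf0_D (a : (psn G e he).A) : cf0 G e he ((psn G e he).D a) = G.D (cf0 G e he a) :=
  coeff_psL G.D 0 a

theorem cf0_pd (j : M) (a : (psn G e he).A) :
    cf0 G e he ((psn G e he).pd j a) = G.pd j (cf0 G e he a) :=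
  coeff_psL (G.pd j) 0 a

theorem cf0_I {a : (psn G e he).A} (h : a ∈ (psn G e he).I) : cf0 G e he a ∈ G.I := h 0

theorem cf0_R {a : (psn G e he).A} (h : a ∈ (psn G e he).R) : cf0 G e he a ∈ G.R := h 0

theorem cf0_H {g : ℤ} {a : (psn G e he).A} (h : a ∈ (psn G e he).Hd g) : cf0 G e he a ∈ G.Hm g := by
  have := h 0
  rw [Nat.cast_zero, zero_mul, sub_zero] at this
  exact this

theorem Cn_R {a : G.A} (h : a ∈ G.R) : Cn G e he a ∈ (psn G e he).R := by
  intro i
  show coeff i (PowerSeries.C a : PowerSeries G.A) ∈ G.R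
  rw [coeff_C]
  split_ifs
  · exact h
  · exact G.R.zero_mem

theorem Cn_H {g : ℤ} {a : G.A} (h : a ∈ G.Hm g) : Cn G e he a ∈ (psn G e he).Hd g := by
  intro i
  show coeff i (PowerSeries.C a : PowerSeries G.A) ∈ G.Hm (g - i * e)
  rw [coeff_C]
  split_ifs with hi
  · rw [hi, Nat.cast_zero, zero_mul, sub_zero]
    exact h
  · exact (G.Hm _).zero_mem

theorem Cn_dx (a : G.A) : (psn G e he).dx (Cn G e he a) = 0 := by
  have := psdx_psev (PowerSeries.C a : PowerSeries G.A)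
  rwa [psev_apply, coeff_C, if_pos rfl] at this

theorem Cn_D (a : G.A) : (psn G e he).D (Cn G e he a) = Cn G e he (G.D a) := lst_psL_C G.D a

theorem Cn_pd (j : M) (a : G.A) : (psn G e he).pd j (Cn G e he a) = Cn G e he (G.pd j a) :=
  lst_psL_C (G.pd j) a

theorem Cn_smul (r : ℚ) (a : G.A) : Cn G e he (r • a) = r • Cn G e he a := by
  show (PowerSeries.C (r • a) : PowerSeries G.A) = r • PowerSeries.C a
  refine PowerSeries.ext fun i => ?_
  rw [ps_coeff_smul, coeff_C, coeff_C]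
  split_ifs
  · rfl
  · exact (smul_zero _).symm

theorem Cn_of {a : (psn G e he).A} (h : (psn G e he).dx a = 0) : a = Cn G e he (cf0 G e he a) :=
  ps_C_of (A := G.A) h

theorem psm_Cn (φ : Mor G H) (a : G.A) :
    (psm φ e he).f (Cn G e he a) = Cn H e he (φ.f a) := by
  show (psF φ.f (PowerSeries.C a) : PowerSeries H.A) = PowerSeries.C (φ.f a)
  refine PowerSeries.ext fun i => ?_
  rw [coeff_psF, coeff_C, coeff_C]
  split_ifs
  · rfl
  · exact map_zero _

end

/-- The degree of an even unit with constant coefficient in `I` is even and positive. -/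
theorem q_pos {K : Set (GA M xd N)} (hP : IPos K) (hnt : ∀ G ∈ K, Nontrivial G.A)
    {G : GA M xd N} (hG : G ∈ K) {q : ℤ} {a : G.A} (hu : IsUnit a) (hs : G.s a = a) (hI : a ∈ G.I)
    (hq : a ∈ G.Hm q) : Even q ∧ 0 < q := by
  have := hnt G hG
  have ha : a ≠ 0 := hu.ne_zero
  constructor
  · by_contra hodd
    rw [Int.not_even_iff_odd] at hodd
    have h1 := Hm_s_odd G hodd hq
    rw [hs] at h1
    have h2 : (2 : ℚ) • a = 0 := by
      rw [two_smul]
      nth_rewrite 2 [h1]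
      exact add_neg_cancel _
    exact ha ((smul_eq_zero.1 h2).resolve_left (by norm_num))
  · by_contra hle
    exact ha (hP G hG q a hI hq (by omega))

theorem map_fil_pow {Γ : Type} [AddCommGroup Γ] {xd : M → Γ} {e d : Γ} {N : NR M Γ xd e d}
    {ν : ND N} {F : ℕ → Γ → Submodule ℚ N.A} (hF : ν.PFil F) {a : N.A} {g : Γ}
    (ha : a ∈ F 0 g) (m : ℕ) : a ^ m ∈ F 0 (m • g) := by
  induction m with
  | zero => rw [pow_zero, zero_smul]; exact hF.one
  | succ m ih =>
    rw [pow_succ, succ_nsmul]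
    exact hF.mul 0 0 _ _ _ ih _ ha

theorem NR.s5DlDl {Γ : Type} [AddCommGroup Γ] {xd : M → Γ} {e d : Γ} (N : NR M Γ xd e d) {P : N.A}
    (hPs : N.s P = -P) (h1 : N.s5Dl P P = 0) (a : N.A) : N.s5Dl P (N.s5Dl P a) = 0 := by
  have e1 : N.s5Dl P (N.D a) = P * N.D (N.dx a) := by
    rw [N.s5Dl_apply, N.D_D, zero_add, N.dx_D]
  have e2 : N.s5Dl P (N.dx a) = N.D (N.dx a) + P * N.dx (N.dx a) := rfl
  have e3 : P * P = 0 := by
    have h2 := N.odd_anti _ _ hPs hPs
    have h3 : (2 : ℚ) • (P * P) = 0 := by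
      rw [two_smul]
      nth_rewrite 2 [h2]
      exact add_neg_cancel _
    exact (smul_eq_zero.1 h3).resolve_left (by norm_num)
  rw [N.s5Dl_apply P a, map_add, e1, N.s5Dl_mul hPs, h1, zero_mul, zero_add, hPs, e2,
    mul_add, ← mul_assoc]
  simp only [neg_mul, e3, zero_mul, neg_zero, add_zero, add_neg_cancel]

/-- Step (5) for one component. -/
theorem last_comp {K : Set (GA M xd N)} {ℓ R₀ : ℕ} (hS : SSb K ℓ R₀) (hP : IPos K)
    (hnt : ∀ G ∈ K, Nontrivial G.A) (he2 : 2 ≤ e) {G : GA M xd N} (hG : G ∈ K) {L : Finset M}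
    (hcard : L.card = ℓ) {q : ℤ} {m J n : ℕ} {P T y x c w : (psn G e he).A}
    {u : ℕ → (psn G e he).A}
    (P_s : (psn G e he).s P = -P)
    (ΔΔ : ∀ a, (psn G e he).s5Dl P ((psn G e he).s5Dl P a) = 0)
    (T_u : IsUnit T) (T_s : (psn G e he).s T = T) (T_I : T ∈ (psn G e he).I)
    (T_d : T ∈ (psn G e he).Hd q) (T_l : (psn G e he).Lv L T) (T_Δ : (psn G e he).s5Dl P T = 0)
    (x_s : (psn G e he).s x = x) (x_R : x ∈ (psn G e he).R)
    (x_d : x ∈ (psn G e he).Hd (m • q + e)) (x_l : (psn G e he).Lv L x)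
    (x_Δ : (psn G e he).s5Dl P x = c)
    (y_s : (psn G e he).s y = y) (y_I : y ∈ (psn G e he).I) (y_d : y ∈ (psn G e he).Hd (m • q + e))
    (c_s : (psn G e he).s c = -c) (c_x : (psn G e he).dx c = 0) (c_I : c ∈ (psn G e he).I)
    (c_d : c ∈ (psn G e he).Hd (m • q + e + 1)) (c_D : (psn G e he).D c = 0)
    (c_l : ∀ j, (psn G e he).pd j c = 0)
    (hwR : w ∈ (psn G e he).R) (hwL : (psn G e he).Lv L w)
    (hwd : w ∈ (psn G e he).Hd (J • q - 1))
    (hfin : T ^ J = ∑ k ∈ Finset.range n, x ^ k * u k + (psn G e he).s5Dl P w)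
    (hu : ∀ k, u k ∈ (psn G e he).I ∧ u k ∈ (psn G e he).Hd (J • q - k • (m • q + e)) ∧
      (psn G e he).s (u k) = u k ∧ (psn G e he).dx (u k) = 0 ∧ (psn G e he).Lv L (u k))
    (hun : ∀ k, n ≤ k → u k = 0)
    (huc : ∀ k : ℕ, (psn G e he).D (u k) + ((k + 1 : ℕ) : ℚ) • (c * u (k + 1)) = 0)
    (huu : IsUnit (∑ k ∈ Finset.range n, (-y) ^ k * u k)) :
    ∃ H ∈ K, ∃ φ : Mor G H, φ.Tame ∧ ∃ η : (psn H e he).A, η ∈ (psn H e he).Hd (-1) ∧
      (psn H e he).Lv L η ∧ (psn H e he).s5Dl ((psm φ e he).f P) η = 1 ∧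
      ((psm φ e he).f T) ^ (J * R₀) * η ∈ (psn H e he).R := by
  have hq := q_pos hP hnt hG (T_u.map (cf0 G e he)) (by rw [← cf0_s, T_s]) (cf0_I T_I) (cf0_H T_d)
  obtain ⟨b, hb⟩ : ∃ b : ℤ, b = m • q + e := ⟨_, rfl⟩
  have hmq : ∀ k : ℕ, Even (k • q) := fun k => by rw [nsmul_eq_mul]; exact hq.1.mul_left _
  have hbe : Even b := by rw [hb]; exact (hmq m).add he
  have hb0 : 0 < b := by
    have h1 : 0 ≤ m • q := nsmul_nonneg hq.2.le m
    omega
  rw [← hb] at x_d y_d c_d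
  obtain ⟨Φ, hΦ⟩ : ∃ Φ : Polynomial G.A,
      Φ = ∑ k ∈ Finset.range n, Polynomial.monomial k (cf0 G e he (u k)) := ⟨_, rfl⟩
  have hΦc : ∀ k, Φ.coeff k = cf0 G e he (u k) := by
    intro k
    rw [hΦ, Polynomial.finsetSum_coeff]
    by_cases hk : k < n
    · rw [Finset.sum_eq_single k]
      · rw [Polynomial.coeff_monomial, if_pos rfl]
      · intro j _ hj
        rw [Polynomial.coeff_monomial, if_neg hj]
      · intro h
        exact absurd (Finset.mem_range.2 hk) h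
    · rw [hun k (by omega), map_zero]
      refine Finset.sum_eq_zero fun j hj => ?_
      rw [Polynomial.coeff_monomial, if_neg]
      rintro rfl
      exact hk (Finset.mem_range.1 hj)
  have hΦd : Φ.natDegree < n + 1 := by
    by_contra hlt
    have h0 : Φ ≠ 0 := by
      intro h
      rw [h, Polynomial.natDegree_zero] at hlt
      omega
    have h1 := hΦc Φ.natDegree
    rw [hun _ (by omega), map_zero] at h1
    exact h0 (Polynomial.leadingCoeff_eq_zero.1 h1)
  obtain ⟨H, hH, φ, hφ, Z, hZ1, hZ2⟩ := hS G hG L hcard b (J • q) (cf0 G e he c)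
    (cf0 G e he (-y)) Φ hbe hb0 (hmq J) (cf0_I c_I) (cf0_H c_d)
    (by rw [← cf0_D, c_D, map_zero])
    (fun j _ => by rw [← cf0_pd, c_l, map_zero])
    (fun k => by
      rw [hΦc]
      obtain ⟨h1, h2, -, -, h5⟩ := hu k
      refine ⟨cf0_I h1, ?_, fun j hj => by rw [← cf0_pd, h5 j hj, map_zero]⟩
      have := cf0_H h2
      rwa [← hb, nsmul_eq_mul k] at this)
    (fun k => by
      rw [hΦc, hΦc, ← cf0_D, ← map_mul, ← cf0_smul, ← map_add, huc, map_zero])
    (cf0_R ((psn G e he).R.neg_mem ((psn G e he).I_le _ y_I)))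
    (cf0_H (((psn G e he).Hd b).neg_mem y_d))
    (by
      have h1 : Φ.eval (cf0 G e he (-y)) =
          cf0 G e he (∑ k ∈ Finset.range n, (-y) ^ k * u k) := by
        rw [Polynomial.eval_eq_sum_range' hΦd, map_sum, Finset.sum_range_succ, hΦc n,
          hun n le_rfl, map_zero, zero_mul, add_zero]
        refine Finset.sum_congr rfl fun k _ => ?_
        rw [hΦc, map_mul, map_pow]
        symm
        refine G.even_comm _ _ ?_
        rw [← map_pow, ← cf0_s, map_pow, map_neg, y_s]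
      rw [h1]
      exact huu.map (cf0 G e he))
  refine ⟨H, hH, φ, hφ, ?_⟩
  obtain ⟨F, hF⟩ : ∃ F, F = psm φ e he := ⟨_, rfl⟩
  rw [← hF]
  have hFC : ∀ a : G.A, F.f (Cn G e he a) = Cn H e he (φ.f a) := by
    intro a
    rw [hF, psm_Cn]
  have hFH : ∀ g : ℤ, ∀ a ∈ (psn G e he).Hd g, F.f a ∈ (psn H e he).Hd g := by
    intro g a ha
    have := F.Hd g a ha
    rwa [hF] at this ⊢
  have hFL : ∀ a, (psn G e he).Lv L a → (psn H e he).Lv L (F.f a) := by
    intro a ha j hj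
    rw [F.pd, ha j hj, map_zero]
  have hFΔ : ∀ a, (psn H e he).s5Dl (F.f P) (F.f a) = F.f ((psn G e he).s5Dl P a) := by
    intro a
    rw [NR.s5Dl_apply, NR.s5Dl_apply, map_add, map_mul, F.D, F.dx]
  have huC : ∀ k, u k = Cn G e he (cf0 G e he (u k)) := fun k => Cn_of (hu k).2.2.2.1
  obtain ⟨p, hp⟩ : ∃ p : Polynomial (psn H e he).A,
      p = (Φ.map (φ.f : G.A →+* H.A)).map (Cn H e he) := ⟨_, rfl⟩
  have hpc : ∀ k, p.coeff k = F.f (u k) := by
    intro k
    rw [hp, Polynomial.coeff_map, Polynomial.coeff_map, hΦc]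
    nth_rewrite 2 [huC k]
    rw [hFC]
    rfl
  have hpd : p.natDegree < n + 1 := by
    rw [hp]
    exact (Polynomial.natDegree_map_le.trans Polynomial.natDegree_map_le).trans_lt hΦd
  obtain ⟨T', hT'⟩ := T_u.map F.f
  have hx_s : (psn H e he).s (F.f x) = F.f x := by rw [F.s, x_s]
  have hev : ∑ k ∈ Finset.range n, (F.f x) ^ k * F.f (u k) = p.eval (F.f x) := by
    rw [NR.s5eval_big (psn H e he) p (F.f x) hpd, Finset.sum_range_succ, hpc n, hun n le_rfl,
      map_zero, zero_mul, add_zero]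
    refine Finset.sum_congr rfl fun k _ => ?_
    rw [hpc]
    exact (psn H e he).even_comm _ _ (by rw [map_pow, hx_s])
  have hc : c = Cn G e he (cf0 G e he c) := Cn_of c_x
  obtain ⟨η, h1, h2, h3, h4⟩ := (psn H e he).s5eta (L := L) (P := F.f P) (g := F.f c)
    (xb := F.f x) (ζ := F.f w) (T := T') (q := q) (b := b) (J := J) (R₀ := R₀) (p := p)
    (Z := Z.map (Cn H e he))
    (by rw [F.s, P_s, map_neg]) (by rw [F.s, c_s, map_neg]) hx_s (by rw [hFΔ, x_Δ])
    (F.R _ x_R) (hFH _ _ x_d) (hFL _ x_l) (by rw [hT', F.s, T_s]) (by rw [hT']; exact hFH _ _ T_d)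
    (by rw [hT']; exact F.R _ ((psn G e he).I_le _ T_I)) (by rw [hT']; exact hFL _ T_l)
    (by rw [hT', hFΔ, T_Δ, map_zero]) (F.R _ hwR) (hFH _ _ hwd) (hFL _ hwL)
    (fun k => by rw [hpc]; exact F.R _ ((psn G e he).I_le _ (hu k).1))
    (fun k => by rw [hpc, F.s, (hu k).2.2.1])
    (fun k => by rw [hpc]; have := hFH _ _ (hu k).2.1; rwa [← hb] at this)
    (fun k => by rw [hpc]; exact hFL _ (hu k).2.2.2.2)
    (by
      rw [hT', ← hev, hFΔ, ← map_pow, hfin, map_add, map_sum]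
      congr 1
      exact Finset.sum_congr rfl fun k _ => by rw [map_mul, map_pow])
    (by rw [hFΔ, hFΔ, ΔΔ, map_zero])
    (fun k => by
      rw [Polynomial.coeff_map]
      exact Cn_dx _)
    (fun k => by
      have hpR : (p ^ R₀).coeff k = Cn H e he (φ.f ((Φ ^ R₀).coeff k)) := by
        rw [hp, ← Polynomial.map_pow, ← Polynomial.map_pow, Polynomial.coeff_map,
          Polynomial.coeff_map]
        rfl
      rw [hpR, ← hZ2 k, map_add, Polynomial.coeff_map, Polynomial.coeff_map, Cn_smul, map_mul,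
        ← hFC, ← hc, Cn_D])
    (fun k => by
      rw [Polynomial.coeff_map]
      exact Cn_R (hZ1 k).1)
    (fun k => by
      rw [Polynomial.coeff_map]
      have := Cn_H (he := he) (hZ1 k).2.1
      rw [nsmul_eq_mul R₀, nsmul_eq_mul k]
      exact this)
    (fun k => by
      rw [Polynomial.coeff_map]
      intro j hj
      rw [Cn_pd, (hZ1 k).2.2 j hj, map_zero])
  refine ⟨η, h1, h2, h3, ?_⟩
  rw [hT'] at h4
  exact h4


section
variable {ι : Type} {Y : ι → GA M xd N}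

/-- The component at `i`. -/
noncomputable def evi (Y : ι → GA M xd N) (e : ℤ) (he : Even e) (i : ι) :
    (psp Y e he).A →ₐ[ℚ] (psn (Y i) e he).A :=
  Pi.evalAlgHom ℚ (fun i => (psn (Y i) e he).A) i

theorem evi_D (i : ι) (a : (psp Y e he).A) :
    evi Y e he i ((psp Y e he).D a) = (psn (Y i) e he).D (evi Y e he i a) := rfl

theorem evi_dx (i : ι) (a : (psp Y e he).A) :
    evi Y e he i ((psp Y e he).dx a) = (psn (Y i) e he).dx (evi Y e he i a) := rfl

theorem evi_s (i : ι) (a : (psp Y e he).A) :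
    evi Y e he i ((psp Y e he).s a) = (psn (Y i) e he).s (evi Y e he i a) := rfl

theorem evi_pd (i : ι) (j : M) (a : (psp Y e he).A) :
    evi Y e he i ((psp Y e he).pd j a) = (psn (Y i) e he).pd j (evi Y e he i a) := rfl

theorem evi_Δ (ν : ND (psp Y e he)) (i : ι) (a : (psp Y e he).A) :
    evi Y e he i (ν.Δ a) = (psn (Y i) e he).s5Dl (evi Y e he i ν.P) (evi Y e he i a) := rfl

theorem evi_Lv {L : Finset M} {a : (psp Y e he).A} (h : (psp Y e he).Lv L a) (i : ι) :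
    (psn (Y i) e he).Lv L (evi Y e he i a) := by
  intro j hj
  rw [← evi_pd, h j hj, map_zero]

theorem evi_R {a : (psp Y e he).A} (h : a ∈ (psp Y e he).R) (i : ι) :
    evi Y e he i a ∈ (psn (Y i) e he).R := h i

theorem evi_I {a : (psp Y e he).A} (h : a ∈ (psp Y e he).I) (i : ι) :
    evi Y e he i a ∈ (psn (Y i) e he).I := h i

theorem evi_H {g : ι → ℤ} {a : (psp Y e he).A} (h : a ∈ (psp Y e he).Hd g) (i : ι) :
    evi Y e he i a ∈ (psn (Y i) e he).Hd (g i) := h i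

end

theorem last [Fintype M] [DecidableEq M] {K : Set (GA M xd N)} {ℓ R₀ : ℕ} (hS : SSb K ℓ R₀)
    (hP : IPos K) (hnt : ∀ G ∈ K, Nontrivial G.A) (he2 : 2 ≤ e) {ι : Type} {X : ι → GA M xd N}
    {ν : ND (psp X e he)} (ok : ν.Ok) {F : ℕ → (ι → ℤ) → Submodule ℚ (psp X e he).A}
    (hF : ν.Fil F) (hcard : ν.L.card = ℓ) {m : ℕ} {Y : ι → GA M xd N} {f : ∀ i, Mor (X i) (Y i)}
    {y : (psp Y e he).A} (S : Stg K ν (fun i => i) (fun _ => m) Y f y) :
    ∃ (Y' : ι → GA M xd N) (g : ∀ i, Mor (Y i) (Y' i)), (∀ i, Y' i ∈ K) ∧ (∀ i, (g i).Tame) ∧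
      ∃ η : (psp Y' e he).A, ((nd ν (fun i => i) f).map (pspm g e he)).Fn η ∧
        η ∈ (psp Y' e he).Hd (fun _ => -1) ∧ ((nd ν (fun i => i) f).map (pspm g e he)).Δ η = 1 := by
  obtain ⟨ν', hν'⟩ : ∃ ν', ν' = nd ν (fun i => i) f := ⟨_, rfl⟩
  have ok' : ν'.Ok := by rw [hν']; exact nd_Ok ok _ f
  obtain ⟨F', hF', -⟩ := map_Fil ((psq X (fun i => i) e he).comp (pspm f e he)) ok hF
  replace hF' : ν'.Fil F' := by rw [hν']; exact hF'
  have hL : ν'.L = ν.L := by rw [hν']; rfl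
  have hq : ν'.q = ν.q := by rw [hν']; rfl
  have hb : bx ν (fun i => i) (fun _ => m) f y =
      ν'.X ((punit ν'.Q (fun _ => m) : (psp Y e he).Aˣ) : (psp Y e he).A) - y := by rw [hν']; rfl
  have hc_p := S.c_p
  have hσI := S.σI
  have hΨ := S.hΨ
  have y_l := S.y_l
  rw [hb] at hc_p
  rw [← hν'] at hc_p hσI hΨ ⊢
  rw [← hL] at y_l
  obtain ⟨g, hg⟩ : ∃ g : ι → ℤ, g = fun i => m • ν'.q i := ⟨_, rfl⟩
  have y_d : y ∈ (psp Y e he).Hd (g + fun _ => e) := by
    have := S.y_d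
    rw [hg, hq]
    exact this
  obtain ⟨G, hG⟩ : ∃ G, G = punit ν'.Q (fun _ => m) := ⟨_, rfl⟩
  have B := Gp_punit ok' (fun _ : ι => m)
  rw [← hg, ← hG] at B
  rw [← hG] at hc_p hσI hΨ
  have hGi : ((G⁻¹ : (psp Y e he).Aˣ) : (psp Y e he).A) ∈ F' 0 (-g) := by
    have h1 := map_fil_pow hF'.toPFil hF'.Q_mem' m
    have h2 : ((G⁻¹ : (psp Y e he).Aˣ) : (psp Y e he).A) =
        ((ν'.Q⁻¹ : (psp Y e he).Aˣ) : (psp Y e he).A) ^ m := by
      rw [hG, punit_const, ← inv_pow, Units.val_pow_eq_pow_val]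
    have h3 : -g = m • -ν'.q := by
      rw [hg, smul_neg]
      rfl
    rw [h2, h3]
    exact h1
  obtain ⟨x, hx⟩ : ∃ x, x = ν'.X (G : (psp Y e he).A) - y := ⟨_, rfl⟩
  obtain ⟨c, hc⟩ : ∃ c, c = ν'.Δ x := ⟨_, rfl⟩
  obtain ⟨J, n, u, w, h1J, hwR, hwL, hwd, -, hfin, hu, hun, huc, huu⟩ :=
    bent_poly ok' hF' B hGi hΨ S.y_s S.y_I y_d S.y_x y_l (c := c) (by rw [hc, hx])
      (by rw [hc, hx]; exact hc_p) hσI
  rw [← hx] at hfin
  rw [← hx, ← hc] at hc_p
  -- the coordinate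
  have hΔy : ν'.Δ y = (psp Y e he).D y := by
    show (psp Y e he).D y + ν'.P * (psp Y e he).dx y = _
    rw [S.y_x, mul_zero, add_zero]
  have hcd : c = ν'.Δ (ν'.X (G : (psp Y e he).A)) - (psp Y e he).D y := by
    rw [hc, hx, ← ΔL_apply, map_sub, ΔL_apply, ΔL_apply, hΔy]
  have x_s : (psp Y e he).s x = x := by rw [hx, map_sub, X_s ok' B, S.y_s]
  have x_R : x ∈ (psp Y e he).R := by
    rw [hx]
    exact (psp Y e he).R.sub_mem ((psp Y e he).int_R _ hΨ) ((psp Y e he).I_le _ S.y_I)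
  have x_d : x ∈ (psp Y e he).Hd (g + fun _ => e) := by
    rw [hx]
    exact Submodule.sub_mem _ (X_d ok' B) y_d
  have x_l : (psp Y e he).Lv ν'.L x := by
    rw [hx]
    exact Lv_sub (X_l ok' B) y_l
  have c_s : (psp Y e he).s c = -c := by
    rw [hc]
    have h1 := ok'.Δ_od.2 x
    rw [ΔL_apply, ΔL_apply, x_s] at h1
    exact h1
  have c_x : (psp Y e he).dx c = 0 := by
    rw [hcd, map_sub, σ_dx ok' B, (psp Y e he).dx_D, S.y_x, map_zero, sub_zero]
  have c_I : c ∈ (psp Y e he).I := by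
    rw [hcd]
    exact Submodule.sub_mem _ hσI ((psp Y e he).D_I _ S.y_I)
  have c_d : c ∈ (psp Y e he).Hd ((g + fun _ => e) + fun _ => 1) := by
    rw [hc]
    exact Hd_Δ ok' x_d
  have c_D : (psp Y e he).D c = 0 := by
    rw [hcd, map_sub, σ_D ok' B, (psp Y e he).D_D, sub_zero]
  -- the components
  have hcomp := fun i => last_comp (J := J) (n := n) (m := m) (q := ν'.q i) (P := evi Y e he i ν'.P)
    (T := evi Y e he i (ν'.Q : (psp Y e he).A)) (y := evi Y e he i y) (x := evi Y e he i x)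
    (c := evi Y e he i c) (w := evi Y e he i w) (u := fun k => evi Y e he i (u k))
    hS hP hnt he2 (S.hY i) (L := ν'.L) (by rw [hL]; exact hcard)
    (by rw [← evi_s, ok'.P_s, map_neg])
    (fun a => (psn (Y i) e he).s5DlDl (by rw [← evi_s, ok'.P_s, map_neg])
      (by rw [← evi_Δ, ok'.ΔP, map_zero]) a)
    ((Units.isUnit ν'.Q).map (evi Y e he i)) (by rw [← evi_s, ok'.Q_s])
    (evi_I ok'.Q_I i) (evi_H ok'.Q_d i) (evi_Lv ok'.Q_lv i)
    (by rw [← evi_Δ, ok'.ΔQ, map_zero])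
    (by rw [← evi_s, x_s]) (evi_R x_R i)
    (by have := evi_H x_d i; rw [hg] at this; exact this) (evi_Lv x_l i)
    (by rw [← evi_Δ, ← hc])
    (by rw [← evi_s, S.y_s]) (evi_I S.y_I i)
    (by have := evi_H y_d i; rw [hg] at this; exact this)
    (by rw [← evi_s, c_s, map_neg]) (by rw [← evi_dx, c_x, map_zero]) (evi_I c_I i)
    (by have := evi_H c_d i; rw [hg] at this; exact this)
    (by rw [← evi_D, c_D, map_zero])
    (fun j => by rw [← evi_pd, hc_p, map_zero])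
    (evi_R hwR i) (evi_Lv hwL i) (evi_H hwd i)
    (by rw [← map_pow, hfin, map_add, map_sum, evi_Δ]; simp only [map_mul, map_pow])
    (fun k => by
      obtain ⟨h1, h2, h3, h4, h5⟩ := hu k
      refine ⟨evi_I h1 i, ?_, by rw [← evi_s, h3], by rw [← evi_dx, h4, map_zero], evi_Lv h5 i⟩
      have := evi_H h2 i
      rw [hg] at this
      exact this)
    (fun k hk => by
      show evi Y e he i (u k) = 0
      rw [hun k hk, map_zero])
    (fun k => by
      have := congrArg (evi Y e he i) (huc k)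
      rw [map_add, evi_D, map_smul, map_mul, map_zero] at this
      exact this)
    (by
      have := huu.map (evi Y e he i)
      rw [map_sum] at this
      simp only [map_mul, map_pow, map_neg] at this
      exact this)
  choose Y' hY' φ hφ η h1 h2 h3 h4 using hcomp
  refine ⟨Y', φ, hY', hφ, fun i => η i, ⟨?_, J * R₀, ?_⟩, ?_, ?_⟩
  · intro j hj
    exact funext fun i => h2 i j hj
  · intro i
    exact h4 i
  · intro i
    exact h1 i
  · exact funext fun i => h3 i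

end AnOC
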