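import Pool.Agent.Helper23.OC.D01

/-!
Step (5), part a: Taylor formula with an exact remainder.
-/

set_option autoImplicit false

namespace AnOC
variable {M Γ : Type} [AddCommGroup Γ] {xd : M → Γ} {e d : Γ} (O : NR M Γ xd e d)

/-- `Δ = D + P ∂_x` as a linear map. -/
def NR.s5Dl (P : O.A) : O.A →ₗ[ℚ] O.A := O.D + (LinearMap.mulLeft ℚ P).comp O.dx

theorem NR.s5odd_comm {a : O.A} (ha : O.s a = -a) (b : O.A) : a * b = O.s b * a := by
  have h0 : O.s (b + O.s b) = b + O.s b := by rw [map_add, O.s_s, add_comm]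
  have h1 : O.s (b - O.s b) = -(b - O.s b) := by rw [map_sub, O.s_s, neg_sub]
  have e0 := O.even_comm _ a h0
  have e1 := O.odd_anti a _ ha h1
  have hsum : (2 : ℚ) • (a * b) = (2 : ℚ) • (O.s b * a) := by
    have e2 : (2 : ℚ) • (a * b) = a * (b + O.s b) + a * (b - O.s b) := by
      rw [two_smul, mul_add, mul_sub]; abel
    rw [e2, ← e0, e1, two_smul, add_mul, sub_mul]; abel
  calc a * b = (1 / 2 : ℚ) • ((2 : ℚ) • (a * b)) := by rw [smul_smul]; norm_num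
    _ = (1 / 2 : ℚ) • ((2 : ℚ) • (O.s b * a)) := by rw [hsum]
    _ = O.s b * a := by rw [smul_smul]; norm_num

theorem NR.s5D_one : O.D 1 = 0 := by
  have h := O.D_mul 1 1
  rw [mul_one, mul_one, map_one O.s, one_mul] at h
  exact (add_eq_left.1 h.symm)

theorem NR.s5dx_one : O.dx 1 = 0 := by
  have h := O.dx_mul 1 1
  rw [mul_one, mul_one, one_mul] at h
  exact (add_eq_left.1 h.symm)

theorem NR.s5pd_one (i : M) : O.pd i 1 = 0 := by
  have h := O.pd_mul i 1 1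
  rw [mul_one, mul_one, map_one O.s, one_mul] at h
  exact (add_eq_left.1 h.symm)

theorem NR.s5Dl_apply (P a : O.A) : O.s5Dl P a = O.D a + P * O.dx a := rfl

theorem NR.s5Dl_mul {P : O.A} (hP : O.s P = -P) (a b : O.A) :
    O.s5Dl P (a * b) = O.s5Dl P a * b + O.s a * O.s5Dl P b := by
  rw [O.s5Dl_apply, O.s5Dl_apply, O.s5Dl_apply, O.D_mul, O.dx_mul, mul_add, add_mul, mul_add,
    ← mul_assoc P a, O.s5odd_comm hP a]
  simp only [mul_assoc]
  abel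

theorem NR.s5Dl_free (P : O.A) {a : O.A} (h : O.dx a = 0) : O.s5Dl P a = O.D a := by
  rw [O.s5Dl_apply, h, mul_zero, add_zero]

/-! ### levels -/

theorem NR.s5Lv_mul {L : Finset M} {a b : O.A} (ha : O.Lv L a) (hb : O.Lv L b) :
    O.Lv L (a * b) := by
  intro j hj
  rw [O.pd_mul, ha j hj, hb j hj, zero_mul, mul_zero, add_zero]

theorem NR.s5Lv_add {L : Finset M} {a b : O.A} (ha : O.Lv L a) (hb : O.Lv L b) :
    O.Lv L (a + b) := by
  intro j hj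
  rw [map_add, ha j hj, hb j hj, add_zero]

theorem NR.s5Lv_neg {L : Finset M} {a : O.A} (ha : O.Lv L a) : O.Lv L (-a) := by
  intro j hj
  rw [map_neg, ha j hj, neg_zero]

theorem NR.s5Lv_sub {L : Finset M} {a b : O.A} (ha : O.Lv L a) (hb : O.Lv L b) :
    O.Lv L (a - b) := by
  rw [sub_eq_add_neg]
  exact O.s5Lv_add ha (O.s5Lv_neg hb)

theorem NR.s5Lv_smul {L : Finset M} (c : ℚ) {a : O.A} (ha : O.Lv L a) : O.Lv L (c • a) := by
  intro j hj
  rw [map_smul, ha j hj, smul_zero]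

theorem NR.s5Lv_one (L : Finset M) : O.Lv L 1 := fun j _ => O.s5pd_one j

theorem NR.s5Lv_zero (L : Finset M) : O.Lv L 0 := fun _ _ => map_zero _

theorem NR.s5Lv_pow {L : Finset M} {a : O.A} (ha : O.Lv L a) (k : ℕ) : O.Lv L (a ^ k) := by
  induction k with
  | zero => rw [pow_zero]; exact O.s5Lv_one L
  | succ k ih => rw [pow_succ]; exact O.s5Lv_mul ih ha

theorem NR.s5Lv_sum {L : Finset M} {β : Type} (s : Finset β) (f : β → O.A)
    (h : ∀ i ∈ s, O.Lv L (f i)) : O.Lv L (∑ i ∈ s, f i) := by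
  intro j hj
  rw [map_sum]
  exact Finset.sum_eq_zero fun i hi => h i hi j hj

theorem NR.s5Lv_ev {L : Finset M} {a : O.A} (ha : O.Lv L a) : O.Lv L (O.ev a) := by
  intro j hj
  rw [← O.ev_pd, ha j hj, map_zero]

theorem NR.s5Lv_int {L : Finset M} {a b : O.A} (ha : O.Lv L a) (h1 : O.dx b = a)
    (h2 : O.ev b = 0) : O.Lv L b := by
  intro j hj
  have h3 : O.dx (O.pd j b) = 0 := by rw [O.dx_pd, h1, ha j hj]
  have h4 : O.ev (O.pd j b) = 0 := by rw [O.ev_pd, h2, map_zero]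
  rw [← O.ev_of _ h3, h4]

/-! ### degrees -/

theorem NR.s5Hd_mul {g g' g'' : Γ} {a b : O.A} (ha : a ∈ O.Hd g) (hb : b ∈ O.Hd g')
    (h : g + g' = g'') : a * b ∈ O.Hd g'' := h ▸ O.Hd_mul _ _ _ _ ha hb

theorem NR.s5pow_Hd {g : Γ} {a : O.A} (ha : a ∈ O.Hd g) (k : ℕ) : a ^ k ∈ O.Hd (k • g) := by
  induction k with
  | zero => rw [pow_zero, zero_smul]; exact O.Hd_one
  | succ k ih =>
    rw [pow_succ]
    exact O.s5Hd_mul ih ha (succ_nsmul g k).symm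

theorem NR.s5int_uniq {a b : O.A} (h1 : O.dx b = a) (h2 : O.ev b = 0) : b = O.int a := by
  have h3 : O.dx (b - O.int a) = 0 := by rw [map_sub, h1, O.dx_int, sub_self]
  have h4 : O.ev (b - O.int a) = 0 := by rw [map_sub, h2, O.ev_int, sub_self]
  rw [← sub_eq_zero, ← O.ev_of _ h3, h4]

theorem NR.s5s_int {a : O.A} (h : O.s a = a) : O.s (O.int a) = O.int a :=
  O.s5int_uniq (by rw [← O.s_dx, O.dx_int, h]) (by rw [O.ev_s, O.ev_int, map_zero])

theorem NR.s5s_int' {a : O.A} (h : O.s a = -a) : O.s (O.int a) = -O.int a := by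
  have h1 : -O.s (O.int a) = O.int a :=
    O.s5int_uniq (by rw [map_neg, ← O.s_dx, O.dx_int, h, neg_neg])
      (by rw [map_neg, O.ev_s, O.ev_int, map_zero, neg_zero])
  exact neg_eq_iff_eq_neg.1 h1

theorem NR.s5dx_pow {a : O.A} (ha : O.s a = a) (k : ℕ) :
    O.dx (a ^ (k + 1)) = ((k + 1 : ℕ) : ℚ) • (a ^ k * O.dx a) := by
  induction k with
  | zero => simp
  | succ n ih =>
    rw [pow_succ a (n + 1), O.dx_mul, ih, smul_mul_assoc, mul_assoc,
      ← O.even_comm a (O.dx a) ha, ← mul_assoc, ← pow_succ]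
    push_cast
    rw [add_smul ((n : ℚ) + 1) 1, one_smul]

/-- One integration step. `Ψ = φ⁻¹ Q^m`, `dx (a₀) = Ψ a₁`. -/
structure S5Data (O : NR M Γ xd e d) (L : Finset M) (P Ψ X : O.A) (b : Γ) : Prop where
  P_odd : O.s P = -P
  P_Hd : P ∈ O.Hd (e + d)
  P_Lv : O.Lv L P
  Ψ_mem : Ψ ∈ O.R
  PΨ_mem : P * Ψ ∈ O.R
  Ψ_Hd : Ψ ∈ O.Hd (b - e)
  Ψ_Lv : O.Lv L Ψ
  Ψ_even : O.s Ψ = Ψ
  DlΨ : O.s5Dl P Ψ = -(O.dx P * Ψ)
  dxX : O.dx X = Ψ
  evX : O.ev X = 0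

variable {O} {L : Finset M} {P Ψ X : O.A} {b : Γ}

theorem S5Data.X_int (h : S5Data O L P Ψ X b) : X = O.int Ψ := O.s5int_uniq h.dxX h.evX

theorem S5Data.X_even (h : S5Data O L P Ψ X b) : O.s X = X := by
  rw [h.X_int]; exact O.s5s_int h.Ψ_even

theorem S5Data.X_mem (h : S5Data O L P Ψ X b) : X ∈ O.R := by
  rw [h.X_int]; exact O.int_R _ h.Ψ_mem

theorem S5Data.X_Hd (h : S5Data O L P Ψ X b) : X ∈ O.Hd b := by
  rw [h.X_int]
  have := O.Hd_int _ _ h.Ψ_Hd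
  rwa [sub_add_cancel] at this

theorem S5Data.X_Lv (h : S5Data O L P Ψ X b) : O.Lv L X := O.s5Lv_int h.Ψ_Lv h.dxX h.evX

/-- One integration. -/
theorem S5Data.step (h : S5Data O L P Ψ X b) {g : Γ} {z : O.A} (hz : z ∈ O.R) (hg : z ∈ O.Hd g)
    (hL : O.Lv L z) (hs : O.s z = -z) :
    ∃ ζ ∈ O.R, O.s ζ = -ζ ∧ ζ ∈ O.Hd (g + b) ∧ O.Lv L ζ ∧ O.dx ζ = Ψ * z ∧ O.ev ζ = 0 ∧
      O.dx (O.s5Dl P ζ) = Ψ * O.s5Dl P z ∧ O.ev (O.s5Dl P ζ) = O.ev (P * Ψ) * O.ev z := by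
  have h1 : Ψ * z ∈ O.R := O.R.mul_mem h.Ψ_mem hz
  have h2 : Ψ * z ∈ O.Hd (b - e + g) := O.Hd_mul _ _ _ _ h.Ψ_Hd hg
  obtain ⟨ζ, hζ⟩ : ∃ ζ, ζ = O.int (Ψ * z) := ⟨_, rfl⟩
  have hζ3 : O.dx ζ = Ψ * z := by rw [hζ, O.dx_int]
  have hζ4 : O.ev ζ = 0 := by rw [hζ, O.ev_int]
  refine ⟨ζ, ?_, ?_, ?_, O.s5Lv_int (O.s5Lv_mul h.Ψ_Lv hL) hζ3 hζ4, hζ3, hζ4, ?_, ?_⟩
  · rw [hζ]; exact O.int_R _ h1
  · rw [hζ]; exact O.s5s_int' (by rw [map_mul, h.Ψ_even, hs, mul_neg])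
  · have e1 : b - e + g + e = g + b := by abel
    rw [hζ, ← e1]
    exact O.Hd_int _ _ h2
  · have e1 : O.dx (O.s5Dl P ζ) = O.s5Dl P (O.dx ζ) + O.dx P * O.dx ζ := by
      rw [O.s5Dl_apply, O.s5Dl_apply, map_add, O.dx_mul, O.dx_D]
      abel
    rw [e1, hζ3, O.s5Dl_mul h.P_odd, h.DlΨ, h.Ψ_even, neg_mul, mul_assoc]
    abel
  · rw [O.s5Dl_apply, map_add, O.ev_D, hζ4, map_zero, zero_add, hζ3, ← mul_assoc, map_mul]

/-- Taylor formula with an exact remainder. -/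
theorem S5Data.taylor (h : S5Data O L P Ψ X b) (n : ℕ) : ∀ (w : Γ) (a : ℕ → O.A) (z : O.A),
    (∀ k ≤ n + 1, a k ∈ O.R) → (∀ k ≤ n + 1, O.Lv L (a k)) →
    (∀ k < n + 1, O.dx (a k) = Ψ * a (k + 1)) → z ∈ O.R → O.Lv L z →
    z ∈ O.Hd (w - (n + 1) • b - d) → O.s z = -z → O.s5Dl P z = a (n + 1) →
    ∃ ζ ∈ O.R, O.s ζ = -ζ ∧ ζ ∈ O.Hd (w - d) ∧ O.Lv L ζ ∧ O.ev ζ = 0 ∧
      a 0 = (∑ k ∈ Finset.range (n + 1), ((k.factorial : ℚ)⁻¹ • O.ev (a k)) * X ^ k) -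
        ((n.factorial : ℚ)⁻¹ • (O.ev (P * Ψ) * O.ev z)) * X ^ n + O.s5Dl P ζ := by
  induction n with
  | zero =>
    intro w a z haR haL hda hz hzL hzw hzs hDz
    obtain ⟨ζ, hζ1, hζs, hζ2, hζ3, hζ4, hζ5, hζ6, hζ7⟩ := h.step hz hzw hzL hzs
    refine ⟨ζ, hζ1, hζs, ?_, hζ3, hζ5, ?_⟩
    · have e : w - (0 + 1) • b - d + b = w - d := by
        rw [zero_add, one_smul]; abel
      rw [e] at hζ2
      exact hζ2
    · have h1 : O.dx (a 0 - O.s5Dl P ζ) = 0 := by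
        rw [map_sub, hζ6, hDz, hda 0 (by omega), sub_self]
      have h2 := O.ev_of _ h1
      rw [map_sub, hζ7] at h2
      simp only [zero_add, Finset.range_one, Finset.sum_singleton, Nat.factorial_zero, Nat.cast_one,
        inv_one, one_smul, pow_zero, mul_one]
      rw [h2]
      abel
  | succ n ih =>
    intro w a z haR haL hda hz hzL hzw hzs hDz
    obtain ⟨ζ', hζ1, hζs, hζ2, hζ3, hζ4, hζ5⟩ := ih (w - b) (fun k => a (k + 1)) z
      (fun k hk => haR (k + 1) (by omega)) (fun k hk => haL (k + 1) (by omega))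
      (fun k hk => hda (k + 1) (by omega)) hz hzL (by
        have e : w - b - (n + 1) • b - d = w - (n + 1 + 1) • b - d := by
          rw [succ_nsmul b (n + 1)]; abel
        rw [e]; exact hzw) hzs hDz
    obtain ⟨ζ, hz1, hzs', hz2, hz3, hz4, hz5, hz6, hz7⟩ := h.step hζ1 hζ2 hζ3 hζs
    refine ⟨ζ, hz1, hzs', ?_, hz3, hz5, ?_⟩
    · have e : w - b - d + b = w - d := by abel
      rw [e] at hz2
      exact hz2
    · obtain ⟨S, hS⟩ : ∃ S, S = (∑ k ∈ Finset.range (n + 1),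
          (((k + 1).factorial : ℚ)⁻¹ • O.ev (a (k + 1))) * X ^ (k + 1)) -
        (((n + 1).factorial : ℚ)⁻¹ • (O.ev (P * Ψ) * O.ev z)) * X ^ (n + 1) := ⟨_, rfl⟩
      have key : ∀ (k : ℕ) (c : O.A), O.dx ((((k + 1).factorial : ℚ)⁻¹ • O.ev c) * X ^ (k + 1)) =
          Ψ * (((k.factorial : ℚ)⁻¹ • O.ev c) * X ^ k) := by
        intro k c
        rw [O.dx_mul, map_smul, O.dx_ev, smul_zero, zero_mul, zero_add, O.s5dx_pow h.X_even,
          h.dxX, mul_smul_comm, smul_mul_assoc, smul_smul, smul_mul_assoc, mul_smul_comm,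
          ← O.even_comm Ψ (X ^ k) h.Ψ_even, ← mul_assoc, ← O.even_comm Ψ (O.ev c) h.Ψ_even,
          mul_assoc]
        congr 1
        rw [Nat.factorial_succ]
        push_cast
        have h1 : (k : ℚ) + 1 ≠ 0 := by positivity
        have h2 : (k.factorial : ℚ) ≠ 0 := by positivity
        field_simp
      have hdS : O.dx S = Ψ * (a 1 - O.s5Dl P ζ') := by
        rw [hζ5, hS, map_sub, map_sum]
        have e1 : O.ev (P * Ψ) * O.ev z = O.ev (P * Ψ * z) := (map_mul O.ev _ _).symm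
        rw [e1, key, Finset.sum_congr rfl fun k _ => key k (a (k + 1)), ← Finset.mul_sum,
          ← mul_sub, ← e1, add_sub_cancel_right]
      have hevS : O.ev S = 0 := by
        rw [hS, map_sub, map_sum]
        rw [Finset.sum_eq_zero, zero_sub, map_mul, map_pow, h.evX, zero_pow (Nat.succ_ne_zero n),
          mul_zero, neg_zero]
        intro k _
        rw [map_mul, map_pow, h.evX, zero_pow (Nat.succ_ne_zero k), mul_zero]
      have h1 : O.dx (a 0 - S - O.s5Dl P ζ) = 0 := by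
        rw [map_sub, map_sub, hda 0 (by omega), hdS, hz6, mul_sub]
        abel
      have h2 := O.ev_of _ h1
      rw [map_sub, map_sub, hevS, hz7, hζ4, mul_zero, sub_zero, sub_zero] at h2
      rw [Finset.sum_range_succ', Nat.factorial_zero, Nat.cast_one, inv_one, one_smul, pow_zero,
        mul_one, h2]
      rw [hS]
      abel

end AnOC
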