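import Pool.Agent.Helper47.OC.S5a

/-!
Step (5), part b: polynomials in a central element `x_b` with `x`-free coefficients.
-/

set_option autoImplicit false

namespace AnOC
open Polynomial
variable {M Γ : Type} [AddCommGroup Γ] {xd : M → Γ} {e d : Γ} (O : NR M Γ xd e d)

/-- `D p = w` for `D x_b = g`. -/
def NR.s5PD (g : O.A) (p w : O.A[X]) : Prop :=
  ∀ k, O.D (p.coeff k) + ((k + 1 : ℕ) : ℚ) • (g * p.coeff (k + 1)) = w.coeff k

/-- All coefficients are `x`-free. -/
def NR.s5Pf (p : O.A[X]) : Prop := ∀ k, O.dx (p.coeff k) = 0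

theorem NR.s5Dl_pow {P : O.A} (hP : O.s P = -P) {a : O.A} (ha : O.s a = a) (k : ℕ) :
    O.s5Dl P (a ^ (k + 1)) = ((k + 1 : ℕ) : ℚ) • (a ^ k * O.s5Dl P a) := by
  induction k with
  | zero => simp
  | succ n ih =>
    rw [pow_succ a (n + 1), O.s5Dl_mul hP, ih, map_pow, ha, smul_mul_assoc, mul_assoc,
      ← O.even_comm a (O.s5Dl P a) ha, ← mul_assoc, ← pow_succ]
    push_cast
    rw [add_smul ((n : ℚ) + 1) 1, one_smul]

theorem NR.s5eval_big (p : O.A[X]) (xb : O.A) {n : ℕ} (hn : p.natDegree < n) :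
    p.eval xb = ∑ k ∈ Finset.range n, p.coeff k * xb ^ k :=
  Polynomial.eval_eq_sum_range' hn xb

/-- The chain rule. -/
theorem NR.s5Dl_eval {P g xb : O.A} (hP : O.s P = -P) (hg : O.s g = -g) (hxb : O.s xb = xb)
    (hDxb : O.s5Dl P xb = g) {p w : O.A[X]} (hf : O.s5Pf p) (h : O.s5PD g p w) :
    O.s5Dl P (p.eval xb) = w.eval xb := by
  obtain ⟨n, hn1, hn2⟩ : ∃ n, p.natDegree < n ∧ w.natDegree < n :=
    ⟨max p.natDegree w.natDegree + 1, by omega, by omega⟩
  rw [O.s5eval_big p xb (show p.natDegree < n + 1 by omega), O.s5eval_big w xb hn2, map_sum]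
  have e1 : ∀ k, O.s5Dl P (p.coeff (k + 1) * xb ^ (k + 1)) =
      O.D (p.coeff (k + 1)) * xb ^ (k + 1) +
        ((k + 1 : ℕ) : ℚ) • (g * p.coeff (k + 1)) * xb ^ k := by
    intro k
    rw [O.s5Dl_mul hP, O.s5Dl_free P (hf _), O.s5Dl_pow hP hxb, hDxb, mul_smul_comm,
      O.even_comm (xb ^ k) g (by rw [map_pow, hxb]), ← mul_assoc, ← O.s5odd_comm hg,
      smul_mul_assoc]
  have e2 : O.s5Dl P (p.coeff 0 * xb ^ 0) = O.D (p.coeff 0) := by
    rw [pow_zero, mul_one, O.s5Dl_free P (hf _)]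
  rw [Finset.sum_range_succ', e2, Finset.sum_congr rfl fun k _ => e1 k, Finset.sum_add_distrib]
  have e3 : ∀ k ∈ Finset.range n, w.coeff k * xb ^ k =
      O.D (p.coeff k) * xb ^ k + ((k + 1 : ℕ) : ℚ) • (g * p.coeff (k + 1)) * xb ^ k := by
    intro k _
    rw [← h k, add_mul]
  rw [Finset.sum_congr rfl e3, Finset.sum_add_distrib]
  have e4 : O.D (p.coeff n) = 0 := by
    rw [Polynomial.coeff_eq_zero_of_natDegree_lt hn1, map_zero]
  have e5 : (∑ k ∈ Finset.range n, O.D (p.coeff (k + 1)) * xb ^ (k + 1)) + O.D (p.coeff 0) =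
      ∑ k ∈ Finset.range n, O.D (p.coeff k) * xb ^ k := by
    have e6 := Finset.sum_range_succ' (fun k => O.D (p.coeff k) * xb ^ k) n
    rw [pow_zero, mul_one] at e6
    rw [← e6, Finset.sum_range_succ, e4, zero_mul, add_zero]
  rw [← e5]
  abel

/-- `x_b` is transcendental over the `x`-free elements. -/
theorem NR.s5transc {xb : O.A} {u : O.Aˣ} (hxb : O.s xb = xb) (hu : O.dx xb = u) (n : ℕ) :
    ∀ c : ℕ → O.A, (∀ k, O.dx (c k) = 0) → ∑ k ∈ Finset.range n, c k * xb ^ k = 0 →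
      ∀ k < n, c k = 0 := by
  induction n with
  | zero => intro c _ _ k hk; omega
  | succ n ih =>
    intro c hc hsum
    have h1 := congrArg O.dx hsum
    rw [map_zero, map_sum, Finset.sum_range_succ'] at h1
    have e0 : O.dx (c 0 * xb ^ 0) = 0 := by rw [pow_zero, mul_one, hc]
    have e1 : ∀ k ∈ Finset.range n, O.dx (c (k + 1) * xb ^ (k + 1)) =
        (((k + 1 : ℕ) : ℚ) • c (k + 1)) * xb ^ k * (u : O.A) := by
      intro k _
      rw [O.dx_mul, hc, zero_mul, zero_add, O.s5dx_pow hxb, hu, mul_smul_comm, ← mul_assoc,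
        smul_mul_assoc, smul_mul_assoc]
    rw [e0, add_zero, Finset.sum_congr rfl e1, ← Finset.sum_mul, Units.mul_left_eq_zero] at h1
    have h2 := ih (fun k => ((k + 1 : ℕ) : ℚ) • c (k + 1))
      (fun k => by rw [map_smul, hc, smul_zero]) h1
    have h3 : ∀ k < n, c (k + 1) = 0 := by
      intro k hk
      have h4 := h2 k hk
      have h5 : ((k + 1 : ℕ) : ℚ) ≠ 0 := by positivity
      exact (smul_eq_zero.1 h4).resolve_left h5
    have h6 : c 0 = 0 := by
      rw [Finset.sum_range_succ', Finset.sum_eq_zero, zero_add, pow_zero, mul_one] at hsum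
      · exact hsum
      · intro k hk
        rw [h3 k (Finset.mem_range.1 hk), zero_mul]
    intro k hk
    rcases k with _ | k
    · exact h6
    · exact h3 k (by omega)

end AnOC
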