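import Pool.Agent.Helper47.OC.S5b

/-!
Step (5), part c: the polynomial `Φ` with `Π^J = Φ(x_b) + Δ ζ`.
-/

set_option autoImplicit false

namespace AnOC
open Polynomial
variable {M Γ : Type} [AddCommGroup Γ] {xd : M → Γ} {e d : Γ} (O : NR M Γ xd e d)

/-- Evaluation at a central element. -/
noncomputable def NR.s5evc (xb : O.A) (hxb : O.s xb = xb) : O.A[X] →+* O.A :=
  Polynomial.eval₂RingHom' (RingHom.id O.A) xb
    (fun a => (O.even_comm xb a hxb).symm)

theorem NR.s5evc_apply (xb : O.A) (hxb : O.s xb = xb) (p : O.A[X]) :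
    O.s5evc xb hxb p = p.eval xb := rfl

/-- The polynomial `D p` for `D x_b = g`. -/
noncomputable def NR.s5PDp (g : O.A) (p : O.A[X]) : O.A[X] :=
  ∑ k ∈ Finset.range (p.natDegree + 1),
    monomial k (O.D (p.coeff k) + ((k + 1 : ℕ) : ℚ) • (g * p.coeff (k + 1)))

theorem NR.s5PDp_coeff (g : O.A) (p : O.A[X]) (k : ℕ) :
    (O.s5PDp g p).coeff k = O.D (p.coeff k) + ((k + 1 : ℕ) : ℚ) • (g * p.coeff (k + 1)) := by
  unfold NR.s5PDp
  rw [finsetSum_coeff]
  by_cases hk : k < p.natDegree + 1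
  · rw [Finset.sum_eq_single k]
    · rw [coeff_monomial, if_pos rfl]
    · intro j _ hj
      rw [coeff_monomial, if_neg hj]
    · intro h
      exact absurd (Finset.mem_range.2 hk) h
  · rw [Finset.sum_eq_zero]
    · rw [coeff_eq_zero_of_natDegree_lt (show p.natDegree < k by omega),
        coeff_eq_zero_of_natDegree_lt (show p.natDegree < k + 1 by omega), map_zero, mul_zero,
        smul_zero, add_zero]
    · intro j hj
      rw [coeff_monomial, if_neg]
      rintro rfl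
      exact hk (Finset.mem_range.1 hj)

/-- A polynomial with closed value at `x_b` is closed. -/
theorem NR.s5PD_zero {P g xb : O.A} {u : O.Aˣ} (hP : O.s P = -P) (hg : O.s g = -g)
    (hxb : O.s xb = xb) (hDxb : O.s5Dl P xb = g) (hu : O.dx xb = u) (hgf : O.dx g = 0)
    {p : O.A[X]} (hf : O.s5Pf p) (h : O.s5Dl P (p.eval xb) = 0) : O.s5PD g p 0 := by
  have h1 : O.s5PD g p (O.s5PDp g p) := fun k => (O.s5PDp_coeff g p k).symm
  have h2 := O.s5Dl_eval hP hg hxb hDxb hf h1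
  rw [h] at h2
  have h3 : ∀ k, O.dx ((O.s5PDp g p).coeff k) = 0 := by
    intro k
    rw [O.s5PDp_coeff, map_add, map_smul, O.dx_mul, hgf, hf, O.dx_D, hf, map_zero, zero_mul,
      mul_zero, add_zero, smul_zero, add_zero]
  intro k
  rw [coeff_zero, ← O.s5PDp_coeff]
  rw [O.s5eval_big _ _ (show (O.s5PDp g p).natDegree < max (O.s5PDp g p).natDegree k + 1 by omega)] at h2
  exact O.s5transc hxb hu _ _ h3 h2.symm k (by omega)

/-- The change of variables `X = x_b + w`. -/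
theorem NR.s5shift {L : Finset M} {xb w : O.A} (hxb : O.s xb = xb) (hw : O.s w = w)
    (hwf : O.dx w = 0) (hwR : w ∈ O.R) (hwL : O.Lv L w) {b w0 : Γ} (hwH : w ∈ O.Hd b) (n : ℕ)
    (c : ℕ → O.A) (hcf : ∀ k, O.dx (c k) = 0) (hcI : ∀ k, c k ∈ O.I) (hcL : ∀ k, O.Lv L (c k))
    (hcH : ∀ k : ℕ, c k ∈ O.Hd (w0 - k • b)) (hcs : ∀ k, O.s (c k) = c k) :
    ∃ p : O.A[X], (∀ k, O.s (p.coeff k) = p.coeff k) ∧ O.s5Pf p ∧ (∀ k, p.coeff k ∈ O.I) ∧ (∀ k, O.Lv L (p.coeff k)) ∧
      (∀ k : ℕ, p.coeff k ∈ O.Hd (w0 - k • b)) ∧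
      p.eval xb = ∑ k ∈ Finset.range (n + 1), c k * (xb + w) ^ k ∧ p.eval (-w) = c 0 := by
  have hwc : ∀ k : ℕ, O.dx (w ^ k) = 0 := by
    intro k
    rcases k with _ | k
    · rw [pow_zero, O.s5dx_one]
    · rw [O.s5dx_pow hw, hwf, mul_zero, smul_zero]
  have hcoeff : ∀ j, (∑ k ∈ Finset.range (n + 1), C (c k) * (X + C w) ^ k).coeff j =
      ∑ k ∈ Finset.range (n + 1), ((k.choose j : ℕ) : ℚ) • (c k * w ^ (k - j)) := by
    intro j
    rw [finsetSum_coeff]
    refine Finset.sum_congr rfl fun k _ => ?_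
    rw [coeff_C_mul, coeff_X_add_C_pow, ← mul_assoc]
    rw [← Nat.cast_comm, Algebra.smul_def, map_natCast]
  have hev : ∀ (y : O.A) (hy : O.s y = y),
      (∑ k ∈ Finset.range (n + 1), C (c k) * (X + C w) ^ k).eval y =
        ∑ k ∈ Finset.range (n + 1), c k * (y + w) ^ k := by
    intro y hy
    rw [← O.s5evc_apply y hy, map_sum]
    refine Finset.sum_congr rfl fun k _ => ?_
    rw [map_mul, map_pow, map_add, O.s5evc_apply, O.s5evc_apply, O.s5evc_apply, eval_C, eval_X, eval_C]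
  refine ⟨∑ k ∈ Finset.range (n + 1), C (c k) * (X + C w) ^ k, ?_, ?_, ?_, ?_, ?_, hev xb hxb, ?_⟩
  · intro j
    rw [hcoeff, map_sum]
    refine Finset.sum_congr rfl fun k _ => ?_
    rw [map_smul, map_mul, map_pow, hw, hcs]
  · intro j
    rw [hcoeff, map_sum]
    refine Finset.sum_eq_zero fun k _ => ?_
    rw [map_smul, O.dx_mul, hcf, hwc, zero_mul, mul_zero, add_zero, smul_zero]
  · intro j
    rw [hcoeff]
    exact Submodule.sum_mem _ fun k _ => Submodule.smul_mem _ _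
      (O.I_mul _ (hcI k) _ (O.R.pow_mem hwR _))
  · intro j
    rw [hcoeff]
    exact O.s5Lv_sum _ _ fun k _ => O.s5Lv_smul _ (O.s5Lv_mul (hcL k) (O.s5Lv_pow hwL _))
  · intro j
    rw [hcoeff]
    refine Submodule.sum_mem _ fun k _ => ?_
    by_cases hjk : j ≤ k
    · refine Submodule.smul_mem _ _ ?_
      refine O.s5Hd_mul (hcH k) (O.s5pow_Hd hwH (k - j)) ?_
      obtain ⟨i, rfl⟩ := Nat.exists_eq_add_of_le hjk
      rw [Nat.add_sub_cancel_left, add_nsmul]
      abel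
    · rw [Nat.choose_eq_zero_of_lt (by omega), Nat.cast_zero, zero_smul]
      exact Submodule.zero_mem _
  · rw [hev (-w) (by rw [map_neg, hw]), neg_add_cancel, Finset.sum_range_succ', Finset.sum_eq_zero,
      zero_add, pow_zero, mul_one]
    intro k _
    rw [zero_pow (Nat.succ_ne_zero k), mul_zero]

end AnOC
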