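import Pool.Agent.Helper47.OC.S5c

/-!
Step (5), part d: `(T^{-m} E)^k T^J = T^{J - m k} ∑_j J^j β_{k j}` with `β` independent of `J`.
-/

set_option autoImplicit false

namespace AnOC
open Polynomial

/-- `β_{k j}`. -/
def bet {A : Type} [Ring A] [Algebra ℚ A] (E : A →ₗ[ℚ] A) (ω : A) (m : ℕ) : ℕ → ℕ → A
  | 0, 0 => 1
  | 0, _ + 1 => 0
  | k + 1, 0 => E (bet E ω m k 0) - ((m * k : ℕ) : ℚ) • (ω * bet E ω m k 0)
  | k + 1, j + 1 => ω * bet E ω m k j +
      (E (bet E ω m k (j + 1)) - ((m * k : ℕ) : ℚ) • (ω * bet E ω m k (j + 1)))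

section
variable {A : Type} [Ring A] [Algebra ℚ A] (E : A →ₗ[ℚ] A) (ω : A) (m : ℕ)

theorem bet_big (k : ℕ) : ∀ j, k < j → bet E ω m k j = 0 := by
  induction k with
  | zero =>
    intro j hj
    rcases j with _ | j
    · omega
    · rfl
  | succ k ih =>
    intro j hj
    rcases j with _ | j
    · omega
    · show ω * bet E ω m k j + (E (bet E ω m k (j + 1)) -
        ((m * k : ℕ) : ℚ) • (ω * bet E ω m k (j + 1))) = 0
      rw [ih j (by omega), ih (j + 1) (by omega), mul_zero, map_zero, smul_zero, sub_zero,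
        add_zero]

/-- `B_k(J)`. -/
def betS (J : ℚ) (k : ℕ) : A := ∑ j ∈ Finset.range (k + 1), J ^ j • bet E ω m k j

theorem betS_zero (J : ℚ) : betS E ω m J 0 = 1 := by
  unfold betS
  rw [zero_add, Finset.sum_range_one, pow_zero, one_smul]
  rfl

theorem betS_big (J : ℚ) (k n : ℕ) (hn : k < n) :
    betS E ω m J k = ∑ j ∈ Finset.range n, J ^ j • bet E ω m k j := by
  unfold betS
  refine Finset.sum_subset (fun j hj => ?_) (fun j _ hj => ?_)
  · rw [Finset.mem_range] at hj ⊢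
    omega
  · rw [Finset.mem_range] at hj
    rw [bet_big E ω m k j (by omega), smul_zero]

theorem betS_succ (J : ℚ) (k : ℕ) :
    betS E ω m J (k + 1) = (J - ((m * k : ℕ) : ℚ)) • (ω * betS E ω m J k) +
      E (betS E ω m J k) := by
  have e1 : betS E ω m J (k + 1) = (∑ j ∈ Finset.range (k + 1), J ^ (j + 1) • (ω * bet E ω m k j)) +
      ((∑ j ∈ Finset.range (k + 1), J ^ (j + 1) • (E (bet E ω m k (j + 1)) -
        ((m * k : ℕ) : ℚ) • (ω * bet E ω m k (j + 1)))) +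
        J ^ 0 • (E (bet E ω m k 0) - ((m * k : ℕ) : ℚ) • (ω * bet E ω m k 0))) := by
    rw [betS, Finset.sum_range_succ', ← add_assoc, ← Finset.sum_add_distrib]
    congr 1
    refine Finset.sum_congr rfl fun j _ => ?_
    rw [← smul_add]
    rfl
  rw [e1, ← Finset.sum_range_succ' (fun j => J ^ j • (E (bet E ω m k j) -
    ((m * k : ℕ) : ℚ) • (ω * bet E ω m k j))) (k + 1)]
  have e2 : (∑ j ∈ Finset.range (k + 1), J ^ (j + 1) • (ω * bet E ω m k j)) =
      J • (ω * betS E ω m J k) := by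
    rw [betS, Finset.mul_sum, Finset.smul_sum]
    refine Finset.sum_congr rfl fun j _ => ?_
    rw [mul_smul_comm, smul_smul, pow_succ, mul_comm J]
  have e3 : (∑ j ∈ Finset.range (k + 1 + 1), J ^ j • (E (bet E ω m k j) -
      ((m * k : ℕ) : ℚ) • (ω * bet E ω m k j))) =
      E (betS E ω m J k) - ((m * k : ℕ) : ℚ) • (ω * betS E ω m J k) := by
    rw [betS_big E ω m J k (k + 1 + 1) (by omega), map_sum, Finset.mul_sum, Finset.smul_sum,
      ← Finset.sum_sub_distrib]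
    refine Finset.sum_congr rfl fun j _ => ?_
    rw [map_smul, mul_smul_comm, smul_sub, smul_comm]
  rw [e2, e3, sub_smul]
  abel

end

variable {M Γ : Type} [AddCommGroup Γ] {xd : M → Γ} {e d : Γ} (O : NR M Γ xd e d)

/-- `E = φ ∂_x`. -/
def NR.s5Eo (φ : O.A) : O.A →ₗ[ℚ] O.A := (LinearMap.mulLeft ℚ φ).comp O.dx

theorem NR.s5Eo_apply (φ a : O.A) : O.s5Eo φ a = φ * O.dx a := rfl

/-- `φ ∂_x (T^n B_k) = T^n B_{k+1}` for `n = J - m k`. -/
theorem NR.s5Eo_pow {φ : O.A} {T : O.Aˣ} (hφ : O.s φ = φ) (hT : O.s (T : O.A) = T) (m k J : ℕ)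
    (hJ : m * k ≤ J) :
    φ * O.dx ((T : O.A) ^ (J - m * k) *
        betS (O.s5Eo φ) (((T⁻¹ : O.Aˣ) : O.A) * (φ * O.dx (T : O.A))) m J k) =
      (T : O.A) ^ (J - m * k) *
        betS (O.s5Eo φ) (((T⁻¹ : O.Aˣ) : O.A) * (φ * O.dx (T : O.A))) m J (k + 1) := by
  obtain ⟨ω, hω⟩ : ∃ ω, ω = ((T⁻¹ : O.Aˣ) : O.A) * (φ * O.dx (T : O.A)) := ⟨_, rfl⟩
  have hω1 : φ * O.dx (T : O.A) = T * ω := by rw [hω, Units.mul_inv_cancel_left]
  rw [← hω, betS_succ, O.dx_mul, O.s5Eo_apply]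
  have hcast : (J : ℚ) - ((m * k : ℕ) : ℚ) = ((J - m * k : ℕ) : ℚ) := by
    rw [Nat.cast_sub hJ]
  rw [hcast]
  obtain ⟨n, hn⟩ : ∃ n, n = J - m * k := ⟨_, rfl⟩
  rw [← hn]
  obtain ⟨B, hB⟩ : ∃ B, B = betS (O.s5Eo φ) ω m (J : ℚ) k := ⟨_, rfl⟩
  rw [← hB]
  have hTc : ∀ a, (T : O.A) * a = a * T := fun a => O.even_comm _ a hT
  have hφc : ∀ a, φ * a = a * φ := fun a => O.even_comm _ a hφ
  rcases n with _ | n
  · rw [pow_zero, O.s5dx_one, zero_mul, zero_add, one_mul, one_mul, Nat.cast_zero, zero_smul,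
      zero_add]
  · rw [O.s5dx_pow hT, mul_add, mul_add, smul_mul_assoc, mul_smul_comm, mul_smul_comm]
    congr 1
    · congr 1
      have e1 : φ * ((T : O.A) ^ n * O.dx (T : O.A) * B) = (T : O.A) ^ n * (φ * O.dx (T : O.A)) * B := by
        rw [← mul_assoc, ← mul_assoc, hφc ((T : O.A) ^ n)]
        simp only [mul_assoc]
      rw [e1, hω1, pow_succ]
      simp only [mul_assoc]
    · rw [← mul_assoc, hφc, mul_assoc]

end AnOC
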